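import Mathlib
import Pool.Agent.H680R3.EX.Stmts
import Pool.Agent.Helper404.KMC

set_option autoImplicit false

/-! Task A of helper680: small value and small derivative is rare. -/

open MeasureTheory Set Polynomial

namespace Pool.Agent.H116R3.Ex680A

open Pool.Agent.Helper404 (toP km_concrete kmC kmC_nonneg)
open Pool.Agent.H680R3.EX (DD)

lemma DD_eq {n : ℕ} (k : ℕ) (u : Fin (n + 1) → ℤ) (z : ℝ) :
    DD k u z = ∑ i : Fin (n + 1), (u i : ℝ) * ((((i : ℕ).choose k : ℕ) : ℝ) * z ^ ((i : ℕ) - k)) := by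
  unfold DD toP
  rw [map_sum, Polynomial.map_sum, eval_finsetSum]
  refine Finset.sum_congr rfl (fun i _ => ?_)
  rw [C_mul_X_pow_eq_monomial, hasseDeriv_monomial, Polynomial.map_monomial, eval_monomial]
  push_cast
  simp only [eq_intCast]
  push_cast
  ring

lemma DD_bound {n : ℕ} (k : ℕ) (u : Fin (n + 1) → ℤ) (z H : ℝ) (hz : |z| ≤ 2)
    (hu : ∀ i, |(u i : ℝ)| ≤ H) : |DD k u z| ≤ ((n + 1) * 4 ^ n) * H := by
  have hH : 0 ≤ H := (abs_nonneg _).trans (hu 0)
  rw [DD_eq]
  refine (Finset.abs_sum_le_sum_abs _ _).trans ?_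
  calc ∑ i : Fin (n + 1), |(u i : ℝ) * ((((i : ℕ).choose k : ℕ) : ℝ) * z ^ ((i : ℕ) - k))|
      ≤ ∑ i : Fin (n + 1), H * 4 ^ n := by
        refine Finset.sum_le_sum (fun i _ => ?_)
        rw [abs_mul, abs_mul, abs_pow, Nat.abs_cast]
        have h1 : (((i : ℕ).choose k : ℕ) : ℝ) ≤ 2 ^ n := by
          have h2 : (i : ℕ).choose k ≤ 2 ^ (i : ℕ) := Nat.choose_le_two_pow _ _
          have h3 : 2 ^ (i : ℕ) ≤ 2 ^ n := Nat.pow_le_pow_right (by norm_num) (by omega)
          exact_mod_cast h2.trans h3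
        have h4 : |z| ^ ((i : ℕ) - k) ≤ 2 ^ n := by
          calc |z| ^ ((i : ℕ) - k) ≤ 2 ^ ((i : ℕ) - k) := pow_le_pow_left₀ (abs_nonneg _) hz _
            _ ≤ 2 ^ n := pow_le_pow_right₀ (by norm_num) (by omega)
        have h5 : (4 : ℝ) ^ n = 2 ^ n * 2 ^ n := by
          rw [← mul_pow]; norm_num
        rw [h5]
        refine mul_le_mul (hu i) ?_ (by positivity) hH
        exact mul_le_mul h1 h4 (by positivity) (by positivity)
    _ = ((n + 1) * 4 ^ n) * H := by
        rw [Finset.sum_const, Finset.card_univ, Fintype.card_fin, nsmul_eq_mul]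
        push_cast
        ring

/-- the weights -/
noncomputable def wn (n : ℕ) (B φ X : ℝ) : ℕ → ℝ
  | 0 => B / X ^ n
  | 1 => φ * X
  | _ + 2 => B * X

lemma wn_pos {n : ℕ} {B φ X : ℝ} (hB : 0 < B) (hφ : 0 < φ) (hX : 0 < X) (k : ℕ) :
    0 < wn n B φ X k := by
  match k with
  | 0 => exact div_pos hB (by positivity)
  | 1 => exact mul_pos hφ hX
  | _ + 2 => exact mul_pos hB hX

lemma wn_prod (n : ℕ) (B φ X : ℝ) (m : ℕ) :
    ∏ b ∈ Finset.range (m + 2), wn n B φ X b = (B / X ^ n) * (φ * X) * (B * X) ^ m := by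
  induction m with
  | zero =>
    rw [Finset.prod_range_succ, Finset.prod_range_succ, Finset.prod_range_zero]
    simp [wn]
  | succ m ih =>
    rw [Finset.prod_range_succ, ih, pow_succ]
    simp only [wn]
    ring

theorem taskA : Pool.Agent.H680R3.EX.TaskA := by
  intro n hn ε A hε hA
  have hn1 : 1 ≤ n := by omega
  have hnR : (0 : ℝ) ≤ n := Nat.cast_nonneg n
  set Dn : ℕ := (n + 1) * n with hDn
  have hD1 : 1 ≤ Dn := by rw [hDn]; nlinarith
  have hDR : (0 : ℝ) < (Dn : ℝ) := by exact_mod_cast hD1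
  set K : ℝ := kmC (4 * (((n + 1) * n : ℕ) + 1) ^ 2) (n + 1) * 3 with hK
  have hK0 : 0 ≤ K := by
    have := kmC_nonneg (C := 4 * ((((n + 1) * n : ℕ) : ℝ) + 1) ^ 2) (by positivity) (n + 1)
    positivity
  -- the small parameter
  set e : ℝ := min 1 ((ε / (K + 1)) ^ Dn) with he
  have he0 : 0 < e := lt_min one_pos (by positivity)
  have he1 : e ≤ 1 := min_le_left _ _
  have heK : K * e ^ (1 / (Dn : ℝ)) ≤ ε := by
    have h1 : e ^ (1 / (Dn : ℝ)) ≤ ε / (K + 1) := by
      calc e ^ (1 / (Dn : ℝ)) ≤ ((ε / (K + 1)) ^ Dn) ^ (1 / (Dn : ℝ)) :=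
            Real.rpow_le_rpow he0.le (min_le_right _ _) (by positivity)
        _ = ε / (K + 1) := by
            rw [← Real.rpow_natCast, ← Real.rpow_mul (by positivity), mul_one_div,
              div_self hDR.ne', Real.rpow_one]
    calc K * e ^ (1 / (Dn : ℝ)) ≤ K * (ε / (K + 1)) := mul_le_mul_of_nonneg_left h1 hK0
      _ ≤ ε := by
        rw [mul_div_assoc', div_le_iff₀ (by positivity)]
        nlinarith
  set R : ℝ := 1 / ((((n + 1) * n : ℕ) : ℝ) + 1) ^ ((n + 1) * n) with hR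
  have hR0 : 0 < R := by positivity
  set B : ℝ := ((n + 1) * (((n + 1) * 4 ^ n) * A) + 1) / e with hB
  have hBe : e * B = (n + 1) * (((n + 1) * 4 ^ n) * A) + 1 := by
    rw [hB, mul_div_cancel₀ _ he0.ne']
  have h4n : (1 : ℝ) ≤ (n + 1) * 4 ^ n := by
    have h1 : (1 : ℝ) ≤ 4 ^ n := one_le_pow₀ (by norm_num)
    nlinarith
  have hnum : (1 : ℝ) ≤ (n + 1) * (((n + 1) * 4 ^ n) * A) + 1 := by
    have : (0 : ℝ) ≤ (n + 1) * (((n + 1) * 4 ^ n) * A) := by positivity
    linarith
  have hB1 : 1 ≤ B := by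
    rw [hB, le_div_iff₀ he0]
    linarith
  have hB0 : 0 < B := by linarith
  set φ' : ℝ := min 1 (R / B ^ n) with hφ'
  have hφ'0 : 0 < φ' := lt_min one_pos (by positivity)
  have hφ'R : B ^ n * φ' ≤ R := by
    have h1 : φ' ≤ R / B ^ n := min_le_right _ _
    rw [le_div_iff₀ (by positivity)] at h1
    linarith
  refine ⟨e * φ' / (n + 1), by positivity, max 1 (B / R), fun X hX => ?_⟩
  have hX1 : 1 ≤ X := (le_max_left _ _).trans hX
  have hXB : B / R ≤ X := (le_max_right _ _).trans hX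
  have hX0 : 0 < X := by linarith
  have hBX : B / X ≤ R := by
    rw [div_le_iff₀ hR0] at hXB
    rw [div_le_iff₀ hX0]
    linarith
  have hrich : ∀ j : ℕ, 1 ≤ j → ∀ hj : j ≤ n + 1,
      (1 : ℝ) ^ j * ∏ b : Fin j, (fun k : Fin (n + 1) => wn n B φ' X (k : ℕ)) (Fin.castLE hj b) ≤
      1 / ((((n + 1) * n : ℕ) : ℝ) + 1) ^ ((n + 1) * n) := by
    intro j hj1 hj
    rw [one_pow, one_mul]
    have h1 : ∏ b : Fin j, (fun k : Fin (n + 1) => wn n B φ' X (k : ℕ)) (Fin.castLE hj b) =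
        ∏ b ∈ Finset.range j, wn n B φ' X b := by
      rw [Finset.prod_range]
      rfl
    rw [h1]
    rcases Nat.lt_or_ge j 2 with h2 | h2
    · have hj' : j = 1 := by omega
      subst hj'
      rw [Finset.prod_range_one]
      change B / X ^ n ≤ R
      refine le_trans ?_ hBX
      apply div_le_div_of_nonneg_left hB0.le hX0
      calc X = X ^ 1 := (pow_one X).symm
        _ ≤ X ^ n := pow_le_pow_right₀ hX1 hn1
    · obtain ⟨m, rfl⟩ : ∃ m, j = m + 2 := ⟨j - 2, by omega⟩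
      rw [wn_prod]
      change _ ≤ R
      refine le_trans ?_ hφ'R
      have h3 : B / X ^ n * (φ' * X) * (B * X) ^ m = (B ^ (m + 1) * φ') * (X ^ (m + 1) / X ^ n) := by
        rw [mul_pow, pow_succ B m, pow_succ X m]
        ring
      rw [h3]
      have h4 : X ^ (m + 1) / X ^ n ≤ 1 := by
        rw [div_le_one (by positivity)]
        exact pow_le_pow_right₀ hX1 (by omega)
      have h5 : B ^ (m + 1) ≤ B ^ n := pow_le_pow_right₀ hB1 (by omega)
      calc (B ^ (m + 1) * φ') * (X ^ (m + 1) / X ^ n) ≤ (B ^ (m + 1) * φ') * 1 :=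
            mul_le_mul_of_nonneg_left h4 (by positivity)
        _ = B ^ (m + 1) * φ' := mul_one _
        _ ≤ B ^ n * φ' := mul_le_mul_of_nonneg_right h5 hφ'0.le
  have hkm := km_concrete (fun k : Fin (n + 1) => wn n B φ' X (k : ℕ)) hn1
    (fun k => wn_pos hB0 hφ'0 hX0 _) 1 one_pos hrich e he0 he1
  refine (measure_mono ?_).trans (hkm.trans (ENNReal.ofReal_le_ofReal ?_))
  · rintro z ⟨hz, u, hu, hu1, hu2, hu3⟩
    refine ⟨hz, u, hu, fun k => ?_⟩
    have hz2 : |z| ≤ 2 := by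
      rw [abs_le]
      constructor
      · linarith [hz.1]
      · exact hz.2.le
    have hn1' : (0 : ℝ) < n + 1 := by positivity
    rw [mul_one]
    have hgen : ∀ m : ℕ, |((hasseDeriv m (toP u)).map (Int.castRingHom ℝ)).eval z| = |DD m u z| :=
      fun _ => rfl
    rw [hgen]
    have hk : ∀ m : ℕ, (n + 1) * |DD m u z| < e * wn n B φ' X m := by
      intro m
      match m with
      | 0 =>
        change (n + 1) * |DD 0 u z| < e * (B / X ^ n)
        have h1 : (n + 1) * |DD 0 u z| ≤ (n + 1) * (A / X ^ n) :=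
          mul_le_mul_of_nonneg_left hu2 hn1'.le
        refine h1.trans_lt ?_
        rw [mul_div_assoc', mul_div_assoc']
        apply div_lt_div_of_pos_right _ (by positivity)
        rw [hBe]
        have h2 : (n + 1) * A ≤ (n + 1) * (((n + 1) * 4 ^ n) * A) := by
          apply mul_le_mul_of_nonneg_left _ hn1'.le
          nlinarith
        linarith
      | 1 =>
        change (n + 1) * |DD 1 u z| < e * (φ' * X)
        have h1 : (n + 1) * |DD 1 u z| < (n + 1) * (e * φ' / (n + 1) * X) :=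
          mul_lt_mul_of_pos_left hu3 hn1'
        refine h1.trans_le (le_of_eq ?_)
        field_simp
      | m + 2 =>
        change (n + 1) * |DD (m + 2) u z| < e * (B * X)
        have h1 := DD_bound (m + 2) u z (A * X) hz2 hu1
        have h2 : (n + 1) * |DD (m + 2) u z| ≤ (n + 1) * (((n + 1) * 4 ^ n) * (A * X)) :=
          mul_le_mul_of_nonneg_left h1 hn1'.le
        refine h2.trans_lt ?_
        rw [← mul_assoc e, hBe]
        nlinarith
    exact hk k
  · have h1 : kmC (4 * (((n + 1) * n : ℕ) + 1) ^ 2) (n + 1) * e ^ (1 / (((n + 1) * n : ℕ) : ℝ)) * 3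
        = K * e ^ (1 / (Dn : ℝ)) := by
      rw [hK, hDn]; ring
    rw [h1]
    exact heK

end Pool.Agent.H116R3.Ex680A
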