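import Mathlib
import Pool.Agent.H680R3.EX.Stmts
import Pool.Agent.Helper404.KMC

set_option autoImplicit false

/-! Quantitative nondivergence for a general polynomial frame: a generalisation of
`Pool/Agent/Helper404/KMC.lean` (task B of helper680). -/

open MeasureTheory Set Polynomial

namespace Pool.Agent.H116R3.Ex680B

open Pool.Agent.Helper404 (Marked km kmC kmC_nonneg sublevel exists_large)
open Pool.Agent.H680R3.EX (Lf)

/-- rational version of an integer vector -/
def castQ {ι : Type} (u : ι → ℤ) : ι → ℚ := fun i => (u i : ℚ)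

section frame

variable {ι : Type} [Fintype ι] [DecidableEq ι] [Nonempty ι] (A : ι → ι → ℤ[X]) {d : ℕ}

/-- generalized minors (integer polynomials) -/
noncomputable def Dt {j : ℕ} (v : Fin j → ι → ℤ) (e : Fin j → ι) : ℤ[X] :=
  Matrix.det (Matrix.of fun a b : Fin j => Lf A (e b) (v a))

omit [DecidableEq ι] [Nonempty ι] in
lemma Lf_natDegree (hA : ∀ k i, (A k i).natDegree ≤ d) (k : ι) (u : ι → ℤ) :
    (Lf A k u).natDegree ≤ d := by
  unfold Lf
  apply natDegree_sum_le_of_forall_le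
  intro i _
  exact (natDegree_C_mul_le _ _).trans (hA k i)

omit [DecidableEq ι] [Nonempty ι] in
lemma Dt_natDegree (hA : ∀ k i, (A k i).natDegree ≤ d) {j : ℕ} (v : Fin j → ι → ℤ)
    (e : Fin j → ι) : (Dt A v e).natDegree ≤ j * d := by
  unfold Dt
  rw [Matrix.det_apply]
  apply natDegree_sum_le_of_forall_le
  intro σ _
  refine (natDegree_smul_le _ _).trans ?_
  refine (natDegree_prod_le _ _).trans ?_
  calc ∑ i : Fin j, ((Matrix.of fun a b : Fin j => Lf A (e b) (v a)) (σ i) i).natDegree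
      ≤ ∑ i : Fin j, d := by
        refine Finset.sum_le_sum (fun i _ => ?_)
        simp only [Matrix.of_apply]
        exact Lf_natDegree A hA _ _
    _ = j * d := by simp

/-- integer basis of a rational subspace -/
def IB (U : Submodule ℚ (ι → ℚ)) (j : ℕ) (v : Fin j → ι → ℤ) : Prop :=
  LinearIndependent ℚ (fun a => castQ (v a)) ∧ Submodule.span ℚ (range (fun a => castQ (v a))) = U

omit [DecidableEq ι] [Nonempty ι] in
lemma IB.finrank {U : Submodule ℚ (ι → ℚ)} {j : ℕ} {v : Fin j → ι → ℤ}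
    (h : IB U j v) : Module.finrank ℚ U = j := by
  rw [← h.2, finrank_span_eq_card h.1, Fintype.card_fin]

omit [DecidableEq ι] [Nonempty ι] in
lemma IB.le {U : Submodule ℚ (ι → ℚ)} {j : ℕ} {v : Fin j → ι → ℤ}
    (h : IB U j v) : j ≤ Fintype.card ι := by
  rw [← h.finrank]
  refine (Submodule.finrank_le U).trans ?_
  simp

omit [DecidableEq ι] [Nonempty ι] in
/-- proportionality -/
lemma IB.prop {U : Submodule ℚ (ι → ℚ)} {j : ℕ} {v v' : Fin j → ι → ℤ}
    (h : IB U j v) (h' : IB U j v') : ∃ d : ℚ, ∀ e : Fin j → ι,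
      (Dt A v' e).map (Int.castRingHom ℚ) = C d * (Dt A v e).map (Int.castRingHom ℚ) := by
  have hex : ∀ a : Fin j, ∃ c : Fin j → ℚ, ∑ b, c b • castQ (v b) = castQ (v' a) := by
    intro a
    have : castQ (v' a) ∈ Submodule.span ℚ (range (fun a => castQ (v a))) := by
      rw [h.2, ← h'.2]
      exact Submodule.subset_span ⟨a, rfl⟩
    exact (Submodule.mem_span_range_iff_exists_fun ℚ).1 this
  choose B hB using hex
  refine ⟨(Matrix.of B).det, fun e => ?_⟩
  have key : ∀ (w : Fin j → ι → ℤ), (Dt A w e).map (Int.castRingHom ℚ) =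
      Matrix.det (Matrix.of fun a b : Fin j =>
        ∑ i, C (castQ (w a) i) * (A (e b) i).map (Int.castRingHom ℚ)) := by
    intro w
    unfold Dt
    rw [← coe_mapRingHom, RingHom.map_det]
    congr 1
    ext1 a b
    simp only [RingHom.mapMatrix_apply, Matrix.map_apply, Matrix.of_apply, Lf, coe_mapRingHom]
    rw [Polynomial.map_sum]
    refine Finset.sum_congr rfl (fun i _ => ?_)
    rw [Polynomial.map_mul, Polynomial.map_C]
    rfl
  rw [key, key]
  have hC : (C (Matrix.of B).det : ℚ[X]) = ((Matrix.of B).map C).det := by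
    rw [RingHom.map_det]; rfl
  rw [hC, ← Matrix.det_mul]
  congr 1
  ext1 a b
  rw [Matrix.mul_apply]
  simp only [Matrix.of_apply, Matrix.map_apply]
  rw [← hB a]
  simp only [Finset.sum_apply, Pi.smul_apply, smul_eq_mul, map_sum, Finset.sum_mul, C_mul,
    Finset.mul_sum]
  rw [Finset.sum_comm]
  refine Finset.sum_congr rfl (fun x _ => Finset.sum_congr rfl (fun y _ => by ring))

section weights

variable (w : ι → ℝ)

/-- evaluation of a generalized minor, weighted -/
noncomputable def term {j : ℕ} (v : Fin j → ι → ℤ) (z : ℝ) (I : Fin j → ι) : ℝ :=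
  |((Dt A v I).map (Int.castRingHom ℝ)).eval z| / ∏ b, w (I b)

/-- the norm of a tuple -/
noncomputable def Nm {j : ℕ} (v : Fin j → ι → ℤ) (z : ℝ) : ℝ :=
  Finset.univ.sup' Finset.univ_nonempty (term A w v z)

lemma term_le {j : ℕ} (v : Fin j → ι → ℤ) (z : ℝ) (I : Fin j → ι) :
    term A w v z I ≤ Nm A w v z := Finset.le_sup' (term A w v z) (Finset.mem_univ I)

lemma exists_term {j : ℕ} (v : Fin j → ι → ℤ) (z : ℝ) :
    ∃ I, Nm A w v z = term A w v z I := by
  obtain ⟨I, _, hI⟩ := Finset.exists_mem_eq_sup' Finset.univ_nonempty (term A w v z)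
  exact ⟨I, hI⟩

lemma Nm_cont {j : ℕ} (v : Fin j → ι → ℤ) : Continuous (Nm A w v) := by
  unfold Nm
  apply Continuous.finset_sup'_apply
  intro I _
  unfold term
  apply Continuous.div_const
  exact (Polynomial.continuous _).abs

omit [DecidableEq ι] [Nonempty ι] in
lemma term_nonneg (hw : ∀ k, 0 < w k) {j : ℕ} (v : Fin j → ι → ℤ) (z : ℝ)
    (I : Fin j → ι) : 0 ≤ term A w v z I :=
  div_nonneg (abs_nonneg _) (Finset.prod_nonneg (fun _ _ => (hw _).le))

lemma Nm_nonneg (hw : ∀ k, 0 < w k) {j : ℕ} (v : Fin j → ι → ℤ) (z : ℝ) :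
    0 ≤ Nm A w v z := by
  obtain ⟨I, hI⟩ := exists_term A w v z
  rw [hI]; exact term_nonneg A w hw v z I

/-- some minor does not vanish -/
def Nz : Prop := ∀ j : ℕ, ∀ v : Fin j → ι → ℤ, LinearIndependent ℚ (fun a => castQ (v a)) →
  ∃ I : Fin j → ι, Dt A v I ≠ 0

lemma exists_min (hN : Nz A) {U : Submodule ℚ (ι → ℚ)} (h : ∃ j v, IB U j v)
    (hw : ∀ k, 0 < w k) :
    ∃ j, ∃ v : Fin j → ι → ℤ, IB U j v ∧
      ∀ v' : Fin j → ι → ℤ, IB U j v' → ∀ z, Nm A w v z ≤ Nm A w v' z := by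
  classical
  obtain ⟨j, v0, hv0⟩ := h
  obtain ⟨I0, hI0⟩ := hN j v0 hv0.1
  have hex : ∃ m : ℕ, ∃ v : Fin j → ι → ℤ, IB U j v ∧ (Dt A v I0).leadingCoeff.natAbs = m :=
    ⟨_, v0, hv0, rfl⟩
  obtain ⟨v, hv, hmu⟩ := Nat.find_spec hex
  refine ⟨j, v, hv, fun v' hv' z => ?_⟩
  obtain ⟨d, hd⟩ := hv.prop A hv'
  have hmin : (Dt A v I0).leadingCoeff.natAbs ≤ (Dt A v' I0).leadingCoeff.natAbs := by
    rw [hmu]; exact Nat.find_min' hex ⟨v', hv', rfl⟩
  have hWne : Dt A v I0 ≠ 0 := by
    obtain ⟨d0, hd0⟩ := hv.prop A hv0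
    intro h0
    have h1 := hd0 I0
    rw [h0, Polynomial.map_zero, mul_zero] at h1
    exact hI0 ((Polynomial.map_eq_zero_iff (RingHom.injective_int (Int.castRingHom ℚ))).1 h1)
  have hd1 : 1 ≤ |d| := by
    have h1 := congrArg leadingCoeff (hd I0)
    rw [leadingCoeff_mul, leadingCoeff_C,
      leadingCoeff_map_of_injective (RingHom.injective_int _),
      leadingCoeff_map_of_injective (RingHom.injective_int _)] at h1
    have h2 : (0 : ℚ) < |((Dt A v I0).leadingCoeff : ℚ)| := by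
      rw [abs_pos]
      exact_mod_cast leadingCoeff_ne_zero.2 hWne
    have h3 : |((Dt A v I0).leadingCoeff : ℚ)| ≤ |((Dt A v' I0).leadingCoeff : ℚ)| := by
      have : (((Dt A v I0).leadingCoeff.natAbs : ℤ) : ℚ) ≤
          (((Dt A v' I0).leadingCoeff.natAbs : ℤ) : ℚ) := by
        exact_mod_cast hmin
      rw [Int.natCast_natAbs, Int.natCast_natAbs] at this
      simpa using this
    simp only [eq_intCast] at h1
    rw [h1, abs_mul] at h3
    by_contra hcon
    push Not at hcon
    nlinarith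
  obtain ⟨I, hI⟩ := exists_term A w v z
  rw [hI]
  refine le_trans ?_ (term_le A w v' z I)
  unfold term
  refine div_le_div_of_nonneg_right ?_ (Finset.prod_nonneg (fun b _ => (hw _).le))
  have h1 := congrArg (fun p : ℚ[X] => (p.map (Rat.castHom ℝ)).eval z) (hd I)
  simp only [Polynomial.map_mul, map_C, eval_mul, eval_C, Polynomial.map_map] at h1
  have h2 : (Rat.castHom ℝ).comp (Int.castRingHom ℚ) = Int.castRingHom ℝ := RingHom.ext_int _ _
  rw [h2] at h1
  rw [h1, abs_mul]
  have h3 : (1 : ℝ) ≤ |(Rat.castHom ℝ) d| := by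
    rw [Rat.coe_castHom, ← Rat.cast_abs]
    exact_mod_cast hd1
  nlinarith [abs_nonneg (eval z (Polynomial.map (Int.castRingHom ℝ) (Dt A v I)))]

/-- norm of one vector -/
noncomputable def nrm (u : ι → ℤ) (z : ℝ) (k : ι) : ℝ :=
  |((Lf A k u).map (Int.castRingHom ℝ)).eval z| / w k

lemma laplace (hw : ∀ k, 0 < w k) {j : ℕ} (v : Fin j → ι → ℤ) (u : ι → ℤ) (z X : ℝ)
    (hX : ∀ k, nrm A w u z k ≤ X) :
    Nm A w (Fin.cons u v : Fin (j + 1) → ι → ℤ) z ≤ (j + 1) * X * Nm A w v z := by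
  obtain ⟨I, hI⟩ := exists_term A w (Fin.cons u v : Fin (j + 1) → ι → ℤ) z
  rw [hI]
  have hX0 : 0 ≤ X := le_trans (div_nonneg (abs_nonneg _) (hw (Classical.arbitrary ι)).le)
    (hX (Classical.arbitrary ι))
  have hexp : ((Dt A (Fin.cons u v : Fin (j + 1) → ι → ℤ) I).map
      (Int.castRingHom ℝ)).eval z = ∑ b : Fin (j + 1), (-1) ^ (b : ℕ) *
        ((Lf A (I b) u).map (Int.castRingHom ℝ)).eval z *
        ((Dt A v (fun c => I (b.succAbove c))).map (Int.castRingHom ℝ)).eval z := by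
    unfold Dt
    rw [Matrix.det_succ_row_zero, Polynomial.map_sum, eval_finsetSum]
    refine Finset.sum_congr rfl (fun b _ => ?_)
    simp only [Polynomial.map_mul, Polynomial.map_pow, Polynomial.map_neg, Polynomial.map_one,
      eval_mul, eval_pow, eval_neg, eval_one, Matrix.of_apply, Fin.cons_zero]
    congr 3
  unfold term
  rw [hexp, div_le_iff₀ (Finset.prod_pos (fun b _ => hw _))]
  calc |∑ b : Fin (j + 1), (-1) ^ (b : ℕ) *
        ((Lf A (I b) u).map (Int.castRingHom ℝ)).eval z *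
        ((Dt A v (fun c => I (b.succAbove c))).map (Int.castRingHom ℝ)).eval z|
      ≤ ∑ b : Fin (j + 1), |(-1) ^ (b : ℕ) *
        ((Lf A (I b) u).map (Int.castRingHom ℝ)).eval z *
        ((Dt A v (fun c => I (b.succAbove c))).map (Int.castRingHom ℝ)).eval z| :=
        Finset.abs_sum_le_sum_abs _ _
    _ ≤ ∑ b : Fin (j + 1), X * Nm A w v z * ∏ b, w (I b) := by
        refine Finset.sum_le_sum (fun b _ => ?_)
        rw [abs_mul, abs_mul, abs_pow, abs_neg, abs_one, one_pow, one_mul]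
        have h1 := hX (I b)
        unfold nrm at h1
        rw [div_le_iff₀ (hw _)] at h1
        have h2 := term_le A w v z (fun c => I (b.succAbove c))
        unfold term at h2
        rw [div_le_iff₀ (Finset.prod_pos (fun b _ => hw _))] at h2
        rw [Fin.prod_univ_succAbove (fun b => w (I b)) b]
        calc _ ≤ (X * w (I b)) * (Nm A w v z * ∏ c, w (I (b.succAbove c))) :=
              mul_le_mul h1 h2 (abs_nonneg _) (mul_nonneg hX0 (hw _).le)
          _ = _ := by ring
    _ = (j + 1) * X * Nm A w v z * ∏ b, w (I b) := by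
        rw [Finset.sum_const, Finset.card_univ, Fintype.card_fin, nsmul_eq_mul]; push_cast; ring

/-- the poset of nonzero rational subspaces with an integer basis -/
def SB (ι : Type) := {U : Submodule ℚ (ι → ℚ) // ∃ j v, IB U j v}

instance (ι : Type) : PartialOrder (SB ι) := Subtype.partialOrder _

noncomputable def dimOf (hN : Nz A) (hw : ∀ k, 0 < w k) (s : SB ι) : ℕ :=
  (exists_min A w hN s.2 hw).choose

noncomputable def basOf (hN : Nz A) (hw : ∀ k, 0 < w k) (s : SB ι) :
    Fin (dimOf A w hN hw s) → ι → ℤ :=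
  (exists_min A w hN s.2 hw).choose_spec.choose

lemma basOf_IB (hN : Nz A) (hw : ∀ k, 0 < w k) (s : SB ι) :
    IB s.1 (dimOf A w hN hw s) (basOf A w hN hw s) :=
  (exists_min A w hN s.2 hw).choose_spec.choose_spec.1

lemma basOf_min (hN : Nz A) (hw : ∀ k, 0 < w k) (s : SB ι)
    (v' : Fin (dimOf A w hN hw s) → ι → ℤ)
    (h : IB s.1 (dimOf A w hN hw s) v') (z : ℝ) : Nm A w (basOf A w hN hw s) z ≤ Nm A w v' z :=
  (exists_min A w hN s.2 hw).choose_spec.choose_spec.2 v' h z

lemma basOf_min' (hN : Nz A) (hw : ∀ k, 0 < w k) (s : SB ι) {j : ℕ} (v' : Fin j → ι → ℤ)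
    (h : IB s.1 j v') (z : ℝ) : Nm A w (basOf A w hN hw s) z ≤ Nm A w v' z := by
  have hj : j = dimOf A w hN hw s := by rw [← h.finrank, (basOf_IB A w hN hw s).finrank]
  subst hj
  exact basOf_min A w hN hw s v' h z

/-- rank -/
noncomputable def rk (s : SB ι) : ℕ := Module.finrank ℚ s.1

lemma dimOf_eq (hN : Nz A) (hw : ∀ k, 0 < w k) (s : SB ι) : dimOf A w hN hw s = rk s :=
  (basOf_IB A w hN hw s).finrank.symm

/-- the function attached to a subspace -/
noncomputable def fS (hN : Nz A) (hw : ∀ k, 0 < w k) (ρ : ℝ) (s : SB ι) (z : ℝ) : ℝ :=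
  Nm A w (basOf A w hN hw s) z / ρ ^ (rk s)

lemma fS_cont (hN : Nz A) (hw : ∀ k, 0 < w k) (ρ : ℝ) (s : SB ι) :
    Continuous (fS A w hN hw ρ s) :=
  (Nm_cont A w _).div_const _

lemma fS_good (hA : ∀ k i, (A k i).natDegree ≤ d) (hd : 1 ≤ Fintype.card ι * d) (hN : Nz A)
    (hw : ∀ k, 0 < w k) (ρ : ℝ) (hρ : 0 < ρ) (s : SB ι) (a l : ℝ) (hl : 0 < l)
    (hex : ∃ z ∈ Ico a (a + l), 1 ≤ fS A w hN hw ρ s z) (ε : ℝ) (hε : 0 < ε) :
    volume {x ∈ Ico a (a + l) | fS A w hN hw ρ s x < ε} ≤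
      ENNReal.ofReal ((4 * (((Fintype.card ι * d : ℕ) : ℝ) + 1) ^ 2) *
        ε ^ (1 / ((Fintype.card ι * d : ℕ) : ℝ))) * ENNReal.ofReal l := by
  obtain ⟨z, hz, hz1⟩ := hex
  obtain ⟨I, hI⟩ := exists_term A w (basOf A w hN hw s) z
  set j := rk s with hj
  have hρj : 0 < ρ ^ j := by positivity
  have hwI : 0 < ∏ b, w (I b) := Finset.prod_pos (fun _ _ => hw _)
  set p := (Dt A (basOf A w hN hw s) I).map (Int.castRingHom ℝ) with hp
  have hdeg : p.natDegree ≤ Fintype.card ι * d := by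
    refine natDegree_map_le.trans ((Dt_natDegree A hA _ _).trans ?_)
    exact Nat.mul_le_mul_right _ (basOf_IB A w hN hw s).le
  have h1 : ρ ^ j * ∏ b, w (I b) ≤ |p.eval z| := by
    unfold fS at hz1
    rw [hI, one_le_div hρj] at hz1
    unfold term at hz1
    rwa [le_div_iff₀ hwI] at hz1
  have h2 := sublevel (Fintype.card ι * d) hd p hdeg a l hl z (ρ ^ j * ∏ b, w (I b))
    (ε * (ρ ^ j * ∏ b, w (I b))) hz (by positivity) h1 (by positivity)
  rw [mul_div_assoc, div_self (by positivity), mul_one] at h2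
  rw [← ENNReal.ofReal_mul (by positivity)]
  refine le_trans (measure_mono ?_) h2
  rintro x ⟨hx, hx'⟩
  refine ⟨hx, ?_⟩
  unfold fS at hx'
  rw [div_lt_iff₀ hρj] at hx'
  have h3 := term_le A w (basOf A w hN hw s) x I
  unfold term at h3
  have h4 := lt_of_le_of_lt h3 hx'
  rw [div_lt_iff₀ hwI] at h4
  linarith

omit [DecidableEq ι] [Nonempty ι] in
lemma rk_strict (s s' : SB ι) (h : s < s') : rk s < rk s' :=
  Submodule.finrank_lt_finrank_of_lt h

omit [Fintype ι] [DecidableEq ι] [Nonempty ι] in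
lemma castQ_eq_zero {u : ι → ℤ} (h : castQ u = 0) : u = 0 := by
  ext i
  have := congrFun h i
  simp only [castQ, Pi.zero_apply, Int.cast_eq_zero] at this
  exact this

/-- the bottom element -/
def botS (ι : Type) : SB ι := ⟨⊥, 0, Fin.elim0, by
  constructor
  · exact linearIndependent_empty_type
  · simp⟩

lemma Nm_empty (v : Fin 0 → ι → ℤ) (z : ℝ) : Nm A w v z = 1 := by
  obtain ⟨I, hI⟩ := exists_term A w v z
  rw [hI]
  unfold term Dt
  simp

/-- marked points have no short vectors -/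
lemma marked_bound (hN : Nz A) (hw : ∀ k, 0 < w k) (ρ : ℝ) (hρ : 0 < ρ) (ε : ℝ) (hε : 0 < ε)
    (hε1 : ε ≤ 1) (z : ℝ)
    (hM : Marked (fS A w hN hw ρ) {s : SB ι | s.1 ≠ ⊥} ε z) (u : ι → ℤ) (hu : u ≠ 0) (X : ℝ)
    (hX : ∀ k, nrm A w u z k ≤ X) : ε * ρ ≤ (Fintype.card ι) * X := by
  classical
  obtain ⟨F, hFT, hFc, hF1, hF2⟩ := hM
  have hX0 : 0 ≤ X := le_trans (div_nonneg (abs_nonneg _) (hw (Classical.arbitrary ι)).le)
    (hX (Classical.arbitrary ι))
  -- choose the largest element of `F ∪ {⊥}` not containing `u`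
  obtain ⟨B, hBF, hBu, hBf, hBmax⟩ : ∃ B : SB ι, (B ∈ F ∨ B = botS ι) ∧ castQ u ∉ B.1 ∧
      Nm A w (basOf A w hN hw B) z ≤ ρ ^ (rk B) ∧
      ∀ s ∈ F, castQ u ∉ s.1 → s ≤ B := by
    by_cases hne : ∃ s ∈ F, castQ u ∉ s.1
    · have hex : ∃ m : ℕ, ∃ s ∈ F, castQ u ∉ s.1 ∧ Fintype.card ι - rk s = m := by
        obtain ⟨s, hs, hs'⟩ := hne
        exact ⟨_, s, hs, hs', rfl⟩
      obtain ⟨B, hB, hBu, hBm⟩ := Nat.find_spec hex
      refine ⟨B, Or.inl hB, hBu, ?_, ?_⟩
      · have := (hF1 B hB).2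
        unfold fS at this
        rwa [div_le_one (by positivity)] at this
      · intro s hs hsu
        rcases eq_or_ne s B with h | h
        · exact h.le
        rcases hFc hs hB h with h' | h'
        · exact h'
        · exfalso
          have hlt := rk_strict B s (lt_of_le_of_ne h' h.symm)
          have hmin := Nat.find_min' hex ⟨s, hs, hsu, rfl⟩
          have hle : rk s ≤ Fintype.card ι := by
            rw [← dimOf_eq A w hN hw]; exact (basOf_IB A w hN hw s).le
          omega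
    · push Not at hne
      refine ⟨botS ι, Or.inr rfl, ?_, ?_, ?_⟩
      · intro h
        have : castQ u ∈ (⊥ : Submodule ℚ (ι → ℚ)) := h
        rw [Submodule.mem_bot] at this
        exact hu (castQ_eq_zero this)
      · have h0 : rk (botS ι) = 0 := by
          unfold rk botS; simp
        have hIB : IB (botS ι).1 0 (Fin.elim0 : Fin 0 → ι → ℤ) := by
          constructor
          · exact linearIndependent_empty_type
          · simp [botS]
        have := basOf_min' A w hN hw (botS ι) _ hIB z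
        rw [Nm_empty] at this
        rw [h0, pow_zero]
        exact this
      · intro s hs hsu
        exact absurd (hne s hs) hsu
  have hIB := basOf_IB A w hN hw B
  have hjj : dimOf A w hN hw B = rk B := dimOf_eq A w hN hw B
  -- the new subspace
  have hIB' : IB (B.1 ⊔ Submodule.span ℚ {castQ u}) (dimOf A w hN hw B + 1)
      (Fin.cons u (basOf A w hN hw B) : Fin (dimOf A w hN hw B + 1) → ι → ℤ) := by
    have hcomp : (fun a => castQ ((Fin.cons u (basOf A w hN hw B) :
        Fin (dimOf A w hN hw B + 1) → ι → ℤ) a)) =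
        (Fin.cons (castQ u) (fun a => castQ (basOf A w hN hw B a)) :
          Fin (dimOf A w hN hw B + 1) → ι → ℚ) := by
      ext a
      refine Fin.cases ?_ (fun a => ?_) a
      · simp
      · simp
    constructor
    · rw [hcomp]
      rw [linearIndependent_finCons]
      refine ⟨hIB.1, ?_⟩
      rw [hIB.2]; exact hBu
    · rw [hcomp, Fin.range_cons, Submodule.span_insert, hIB.2, sup_comm]
  set B' : SB ι := ⟨B.1 ⊔ Submodule.span ℚ {castQ u}, dimOf A w hN hw B + 1, _, hIB'⟩ with hB'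
  have hB'u : castQ u ∈ B'.1 := Submodule.mem_sup_right (Submodule.mem_span_singleton_self _)
  have hBB' : B ≤ B' := by
    change B.1 ≤ B'.1
    exact le_sup_left
  have hB'ne : B' ∈ {s : SB ι | s.1 ≠ ⊥} := by
    intro h
    rw [h, Submodule.mem_bot] at hB'u
    exact hu (castQ_eq_zero hB'u)
  have hcmp : ∀ s' ∈ F, B' ≤ s' ∨ s' ≤ B' := by
    intro s' hs'
    by_cases hsu : castQ u ∈ s'.1
    · left
      have hBs : B ≤ s' := by
        rcases hBF with h | h
        · rcases eq_or_ne B s' with h2 | h2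
          · exact h2.le
          · rcases hFc h hs' h2 with h3 | h3
            · exact h3
            · exact absurd (h3 hsu) hBu
        · rw [h]
          change (⊥ : Submodule ℚ (ι → ℚ)) ≤ s'.1
          exact bot_le
      change B.1 ⊔ Submodule.span ℚ {castQ u} ≤ s'.1
      refine sup_le hBs ?_
      rw [Submodule.span_singleton_le_iff_mem]
      exact hsu
    · right
      exact (hBmax s' hs' hsu).trans hBB'
  have hfB' : ε ≤ fS A w hN hw ρ B' z := by
    rcases hF2 B' hB'ne hcmp with h | h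
    · exact (hF1 B' h).1
    · exact hε1.trans h
  have hdim : rk B' = rk B + 1 := by
    rw [← hjj]; exact hIB'.finrank
  have h1 := basOf_min' A w hN hw B' _ hIB' z
  have h2 := laplace A w hw (basOf A w hN hw B) u z X hX
  unfold fS at hfB'
  rw [hdim, le_div_iff₀ (by positivity)] at hfB'
  have hjjR : ((dimOf A w hN hw B : ℕ) : ℝ) = (rk B : ℝ) := by exact_mod_cast hjj
  rw [hjjR] at h2
  set j := rk B with hj
  have h3 : ε * ρ ^ (j + 1) ≤ (j + 1) * X * ρ ^ j := by
    calc ε * ρ ^ (j + 1) ≤ Nm A w (basOf A w hN hw B') z := hfB'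
      _ ≤ _ := h1
      _ ≤ (j + 1) * X * Nm A w (basOf A w hN hw B) z := h2
      _ ≤ (j + 1) * X * ρ ^ j := by gcongr
  have h4 : ε * ρ ≤ (j + 1) * X := by
    have hρj : 0 < ρ ^ j := by positivity
    have : (ε * ρ) * ρ ^ j ≤ ((j + 1) * X) * ρ ^ j := by
      calc (ε * ρ) * ρ ^ j = ε * ρ ^ (j + 1) := by ring
        _ ≤ _ := h3
    exact le_of_mul_le_mul_right this hρj
  refine h4.trans ?_
  have hj1 : (j : ℝ) + 1 ≤ Fintype.card ι := by
    have := hIB'.le
    rw [hjj] at this
    exact_mod_cast this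
  exact mul_le_mul_of_nonneg_right hj1 hX0

end weights

end frame

/-- TASK B -/
theorem taskB : Pool.Agent.H680R3.EX.TaskB := by
  intro ι _ _ _ A d hd1 hA w hw ρ hρ hrich ε hε hε1
  classical
  have hcard : 1 ≤ Fintype.card ι := Fintype.card_pos
  have hcd : 1 ≤ Fintype.card ι * d := Nat.mul_pos hcard hd1
  have hN : Nz A := by
    intro j v hv
    rcases Nat.eq_zero_or_pos j with h0 | h0
    · subst h0
      refine ⟨fun i => i.elim0, ?_⟩
      unfold Dt
      simp
    · obtain ⟨I, hI, _⟩ := hrich j h0 v hv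
      exact ⟨I, hI⟩
  have hkm := km (fS A w hN hw ρ) rk rk_strict (fS_cont A w hN hw ρ)
    (4 * (((Fintype.card ι * d : ℕ) : ℝ) + 1) ^ 2)
    (1 / ((Fintype.card ι * d : ℕ) : ℝ)) (by positivity)
    (fun s a l hl hex ε hε => fS_good A w hA hcd hN hw ρ hρ s a l hl hex ε hε) (Fintype.card ι)
    {s : SB ι | s.1 ≠ ⊥} (Finset.Icc 1 (Fintype.card ι)) (by simp) (by
      intro s hs
      rw [Finset.mem_Icc]
      constructor
      · unfold rk
        rw [Nat.one_le_iff_ne_zero]
        intro h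
        exact hs (Submodule.finrank_eq_zero.1 h)
      · rw [← dimOf_eq A w hN hw]; exact (basOf_IB A w hN hw s).le) (-1) 3 (by norm_num) (by
      intro s hs
      have hjle : dimOf A w hN hw s ≤ Fintype.card ι := (basOf_IB A w hN hw s).le
      have hj1 : 1 ≤ dimOf A w hN hw s := by
        rw [dimOf_eq, rk, Nat.one_le_iff_ne_zero]
        intro h
        exact hs (Submodule.finrank_eq_zero.1 h)
      obtain ⟨I, hI0, hI⟩ := hrich _ hj1 (basOf A w hN hw s) (basOf_IB A w hN hw s).1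
      obtain ⟨z, hz, hz1⟩ := exists_large (Fintype.card ι * d) (Dt A (basOf A w hN hw s) I) hI0
        ((Dt_natDegree A hA _ _).trans (Nat.mul_le_mul_right _ hjle))
      refine ⟨z, ⟨by linarith [hz.1], by linarith [hz.2]⟩, ?_⟩
      unfold fS
      rw [one_le_div (by positivity), ← dimOf_eq A w hN hw s]
      refine le_trans ?_ (term_le A w _ z I)
      unfold term
      rw [le_div_iff₀ (Finset.prod_pos (fun _ _ => hw _))]
      exact hI.trans hz1) ε hε
  refine le_trans (measure_mono ?_) (hkm.trans (le_of_eq ?_))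
  · rintro z ⟨hz, u, hu, hk⟩
    refine ⟨⟨hz.1, by linarith [hz.2]⟩, fun hM => ?_⟩
    -- choose X = max of nrm
    obtain ⟨k0, _, hk0⟩ := Finset.exists_mem_eq_sup' (Finset.univ_nonempty (α := ι))
      (nrm A w u z)
    have h1 := marked_bound A w hN hw ρ hρ ε hε hε1 z hM u hu (nrm A w u z k0) (by
      intro k
      rw [← hk0]
      exact Finset.le_sup' (nrm A w u z) (Finset.mem_univ k))
    have h2 := hk k0
    unfold nrm at h1
    rw [mul_div_assoc', le_div_iff₀ (hw k0)] at h1
    linarith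
  · rw [← ENNReal.ofReal_mul (by
      have := kmC_nonneg (C := 4 * (((Fintype.card ι * d : ℕ) : ℝ) + 1) ^ 2) (by positivity)
        (Fintype.card ι)
      positivity)]

end Pool.Agent.H116R3.Ex680B
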