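import Pool.Agent.H862R3.Prim.Stmts2
import Pool.Agent.H123R3.PV_A

/-! helper116: task D2 of project PRIMVAR. -/

set_option autoImplicit false

namespace Pool.Agent.H116R3.PVD2

open Pool.Agent.H862R3.Prim Pool.Agent.H123R3.PVA

section
variable {X : Type} [Group X]

/-- the normalizer -/
def NZ (R : Subgroup X) : Subgroup X := Subgroup.normalizer (R : Set X)

theorem mem_NZ {R : Subgroup X} {g : X} : g ∈ NZ R ↔ ∀ h, h ∈ R ↔ g * h * g⁻¹ ∈ R :=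
  Subgroup.mem_normalizer_iff

theorem NZ_conj {R : Subgroup X} {g r : X} (hg : g ∈ NZ R) (hr : r ∈ R) : g * r * g⁻¹ ∈ R :=
  (mem_NZ.1 hg r).1 hr

theorem mem_NZ_of {R : Subgroup X} {g : X} (h1 : ∀ r ∈ R, g * r * g⁻¹ ∈ R)
    (h2 : ∀ r ∈ R, g⁻¹ * r * g ∈ R) : g ∈ NZ R := by
  rw [mem_NZ]
  intro h
  refine ⟨h1 h, fun h3 => ?_⟩
  have := h2 _ h3
  have e : g⁻¹ * (g * h * g⁻¹) * g = h := by group
  rwa [e] at this

theorem NZ_conj' {R : Subgroup X} {g r : X} (hg : g ∈ NZ R) (hr : r ∈ R) : g⁻¹ * r * g ∈ R := by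
  have := NZ_conj ((NZ R).inv_mem hg) hr
  rwa [inv_inv] at this

/-- the centralizer -/
def CZ (R : Subgroup X) : Subgroup X := Subgroup.centralizer (R : Set X)

theorem mem_CZ {R : Subgroup X} {g : X} : g ∈ CZ R ↔ ∀ h ∈ R, h * g = g * h :=
  Subgroup.mem_centralizer_iff

theorem CZ_anti {R S : Subgroup X} (h : R ≤ S) : CZ S ≤ CZ R := by
  intro g hg
  rw [mem_CZ] at hg ⊢
  exact fun r hr => hg r (h hr)

theorem NZ_cent {g : X} {R : Subgroup X} (h : g ∈ NZ R) : g ∈ NZ (CZ R) := by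
  refine mem_NZ_of ?_ ?_
  · intro s hs
    rw [mem_CZ] at hs ⊢
    intro r hr
    have h1 := hs _ (NZ_conj' h hr)
    calc r * (g * s * g⁻¹) = g * ((g⁻¹ * r * g) * s) * g⁻¹ := by group
      _ = g * (s * (g⁻¹ * r * g)) * g⁻¹ := by rw [h1]
      _ = (g * s * g⁻¹) * r := by group
  · intro s hs
    rw [mem_CZ] at hs ⊢
    intro r hr
    have h1 := hs _ (NZ_conj h hr)
    calc r * (g⁻¹ * s * g) = g⁻¹ * ((g * r * g⁻¹) * s) * g := by group
      _ = g⁻¹ * (s * (g * r * g⁻¹)) * g := by rw [h1]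
      _ = (g⁻¹ * s * g) * r := by group

theorem NZ_inf {g : X} {R S : Subgroup X} (h1 : g ∈ NZ R) (h2 : g ∈ NZ S) : g ∈ NZ (R ⊓ S) :=
  mem_NZ_of (fun _ hr => ⟨NZ_conj h1 hr.1, NZ_conj h2 hr.2⟩)
    (fun _ hr => ⟨NZ_conj' h1 hr.1, NZ_conj' h2 hr.2⟩)

theorem NZ_sup {g : X} {R S : Subgroup X} (h1 : g ∈ NZ R) (h2 : g ∈ NZ S) : g ∈ NZ (R ⊔ S) := by
  refine mem_NZ_of ?_ ?_
  · have h : R ⊔ S ≤ (R ⊔ S).comap (MulAut.conj g).toMonoidHom :=
      sup_le (fun r hr => (le_sup_left : R ≤ R ⊔ S) (NZ_conj h1 hr))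
        (fun r hr => (le_sup_right : S ≤ R ⊔ S) (NZ_conj h2 hr))
    exact fun r hr => h hr
  · have h : R ⊔ S ≤ (R ⊔ S).comap (MulAut.conj g⁻¹).toMonoidHom := by
      refine sup_le (fun r hr => ?_) (fun r hr => ?_)
      · show g⁻¹ * r * g⁻¹⁻¹ ∈ R ⊔ S
        rw [inv_inv]
        exact (le_sup_left : R ≤ R ⊔ S) (NZ_conj' h1 hr)
      · show g⁻¹ * r * g⁻¹⁻¹ ∈ R ⊔ S
        rw [inv_inv]
        exact (le_sup_right : S ≤ R ⊔ S) (NZ_conj' h2 hr)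
    intro r hr
    have h3 : g⁻¹ * r * g⁻¹⁻¹ ∈ R ⊔ S := h hr
    rwa [inv_inv] at h3

theorem NZ_normal {P : Subgroup X} (hP : P.Normal) (g : X) : g ∈ NZ P :=
  mem_NZ_of (fun r hr => hP.conj_mem r hr g) (fun r hr => by
    have := hP.conj_mem r hr g⁻¹
    rwa [inv_inv] at this)

/-- `A C(A)` -/
def AC (A : Subgroup X) : Subgroup X where
  carrier := {g | ∃ a ∈ A, a⁻¹ * g ∈ CZ A}
  one_mem' := ⟨1, A.one_mem, by simpa using (CZ A).one_mem⟩
  mul_mem' := by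
    rintro g h ⟨a, ha, hga⟩ ⟨b, hb, hhb⟩
    refine ⟨a * b, A.mul_mem ha hb, ?_⟩
    have h1 : b * (a⁻¹ * g) = (a⁻¹ * g) * b := mem_CZ.1 hga b hb
    have h2 : (a * b)⁻¹ * (g * h) = (a⁻¹ * g) * (b⁻¹ * h) := by
      calc (a * b)⁻¹ * (g * h) = b⁻¹ * ((a⁻¹ * g) * b) * (b⁻¹ * h) := by group
        _ = b⁻¹ * (b * (a⁻¹ * g)) * (b⁻¹ * h) := by rw [h1]
        _ = (a⁻¹ * g) * (b⁻¹ * h) := by group
    rw [h2]
    exact (CZ A).mul_mem hga hhb
  inv_mem' := by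
    rintro g ⟨a, ha, hga⟩
    refine ⟨a⁻¹, A.inv_mem ha, ?_⟩
    have h1 : a * (a⁻¹ * g) = (a⁻¹ * g) * a := mem_CZ.1 hga a ha
    have h2 : a⁻¹⁻¹ * g⁻¹ = (a⁻¹ * g)⁻¹ := by
      rw [inv_inv, mul_inv_rev, inv_inv]
      have h3 : g = a⁻¹ * g * a := by
        rw [← h1]
        group
      calc a * g⁻¹ = a * (a⁻¹ * g * a)⁻¹ := by rw [← h3]
        _ = g⁻¹ * a := by group
    rw [h2]
    exact (CZ A).inv_mem hga

theorem mem_AC {A : Subgroup X} {g : X} : g ∈ AC A ↔ ∃ a ∈ A, a⁻¹ * g ∈ CZ A := Iff.rfl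

theorem le_AC (A : Subgroup X) : A ≤ AC A := fun a ha => ⟨a, ha, by
  rw [inv_mul_cancel]
  exact (CZ A).one_mem⟩

theorem CZ_le_AC (A : Subgroup X) : CZ A ≤ AC A := fun a ha => ⟨1, A.one_mem, by
  rw [inv_one, one_mul]
  exact ha⟩

end

theorem inner_of_min (hS : TaskS) {W : Set (FreeGroup ℕ)} (hD : CondD W) {q : ℕ} (hq : q.Prime)
    (ho : HasOrd W q) {X : Type} [Group X] [Finite X] (hX : Laws W X) {P : Subgroup X}
    (hP : MinNormal P) (hPn : ¬ Comm P) {x : X} (hxq : x ^ q ∈ P ⊔ CZ P) {k : ℕ}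
    (hxk : x ^ q ^ k = 1) {P₁ : Subgroup X} (h1 : P₁ ≤ P) (h2 : P ≤ NZ P₁) (h3 : x ∈ NZ P₁)
    (h4 : P₁ ≠ ⊥) (h5 : ∀ U ≤ P₁, U ≠ ⊥ → P ≤ NZ U → x ∈ NZ U → U = P₁) :
    ∃ p₁ ∈ P₁, ∀ r ∈ P₁, x * r * x⁻¹ = p₁ * r * p₁⁻¹ := by
  obtain ⟨hS1, hS2⟩ := hS X P hP hPn P₁ h1 (fun p hp r hr => NZ_conj (h2 hp) hr)
  have hS2' : P ≤ AC P₁ := by
    rw [← hS2]
    exact sup_le (le_AC P₁) (inf_le_right.trans (CZ_le_AC P₁))
  obtain ⟨G₀, _, g₀, hG₀, hg₀⟩ := ho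
  have hqpos : 0 < q := hq.pos
  have hfin : IsOfFinOrder g₀ := by
    rw [← orderOf_pos_iff, hg₀]
    positivity
  haveI : Finite (Subgroup.zpowers g₀) := by
    have := finite_zpowers.2 hfin
    exact this
  let C : Type := Subgroup.zpowers g₀
  let c : Subgroup.zpowers g₀ := ⟨g₀, Subgroup.mem_zpowers g₀⟩
  have hc : orderOf c = q ^ 2 := by
    rw [← hg₀]
    exact Subgroup.orderOf_mk g₀ _
  have hL : Laws W (X × Subgroup.zpowers g₀) :=
    laws_prod hX (laws_of_inj (Subgroup.zpowers g₀).subtype (Subgroup.subtype_injective _) hG₀)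
  let B : Subgroup (X × Subgroup.zpowers g₀) := P₁.prod ⊥
  have hB : ∀ z : X × Subgroup.zpowers g₀, z ∈ B ↔ z.1 ∈ P₁ ∧ z.2 = 1 := by
    intro z
    rw [Subgroup.mem_prod, Subgroup.mem_bot]
  let xc : X × Subgroup.zpowers g₀ := (x, c)
  let Y : Subgroup (X × Subgroup.zpowers g₀) := B ⊔ Subgroup.zpowers xc
  have hBY : B ≤ Y := le_sup_left
  have hxcY : xc ∈ Y := (le_sup_right : Subgroup.zpowers xc ≤ Y) (Subgroup.mem_zpowers xc)
  have hxcN : xc ∈ NZ B := by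
    refine mem_NZ_of ?_ ?_
    · rintro ⟨r, s⟩ hr
      rw [hB] at hr ⊢
      refine ⟨NZ_conj h3 hr.1, ?_⟩
      have : s = 1 := hr.2
      show c * s * c⁻¹ = 1
      rw [this, mul_one, mul_inv_cancel]
    · rintro ⟨r, s⟩ hr
      rw [hB] at hr ⊢
      refine ⟨NZ_conj' h3 hr.1, ?_⟩
      have : s = 1 := hr.2
      show c⁻¹ * s * c = 1
      rw [this, mul_one, inv_mul_cancel]
  have hYN : Y ≤ NZ B := sup_le Subgroup.le_normalizer (by
    rw [Subgroup.zpowers_le]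
    exact hxcN)
  let N : Subgroup Y := B.subgroupOf Y
  have hN : ∀ y : Y, y ∈ N ↔ (y : X × Subgroup.zpowers g₀) ∈ B := fun y => Subgroup.mem_subgroupOf
  have hNnorm : N.Normal := ⟨fun n hn g => by
    rw [hN] at hn ⊢
    exact NZ_conj (hYN g.2) hn⟩
  -- elements of P₁ in N
  let ι : P₁ → Y := fun a => ⟨((a : X), 1), hBY ((hB _).2 ⟨a.2, rfl⟩)⟩
  have hι : ∀ a, ι a ∈ N := fun a => (hN _).2 ((hB _).2 ⟨a.2, rfl⟩)
  have hNι : ∀ n ∈ N, ∃ a : P₁, n = ι a := by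
    rintro ⟨⟨n1, n2⟩, hn⟩ hnN
    have h6 := (hB _).1 ((hN _).1 hnN)
    refine ⟨⟨n1, h6.1⟩, ?_⟩
    apply Subtype.ext
    apply Prod.ext
    · rfl
    · exact h6.2
  -- conjugation
  have hKconj : ∀ K : Subgroup Y, K.Normal → Y ≤ NZ (K.map Y.subtype) := by
    intro K hK y hy
    refine mem_NZ_of ?_ ?_
    · rintro _ ⟨k, hk, rfl⟩
      exact ⟨⟨y, hy⟩ * k * ⟨y, hy⟩⁻¹, hK.conj_mem k hk _, rfl⟩
    · rintro _ ⟨k, hk, rfl⟩
      refine ⟨⟨y, hy⟩⁻¹ * k * ⟨y, hy⟩, ?_, rfl⟩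
      have := hK.conj_mem k hk ⟨y, hy⟩⁻¹
      rwa [inv_inv] at this
  have hNmin : MinNormal N := by
    refine ⟨hNnorm, ?_, ?_⟩
    · intro hbot
      apply h4
      rw [Subgroup.eq_bot_iff_forall]
      intro a ha
      have h6 := hι ⟨a, ha⟩
      rw [hbot, Subgroup.mem_bot] at h6
      have h7 := congrArg (fun y : Y => (y : X × Subgroup.zpowers g₀).1) h6
      exact h7
    · intro K hK hKN hKb
      let K' : Subgroup (X × Subgroup.zpowers g₀) := K.map Y.subtype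
      let U : Subgroup X := K'.comap (MonoidHom.inl X (Subgroup.zpowers g₀))
      have hU : ∀ u : X, u ∈ U ↔ (u, (1 : Subgroup.zpowers g₀)) ∈ K' := fun u => Iff.rfl
      have hUP : U ≤ P₁ := by
        intro u hu
        obtain ⟨k, hk, e⟩ := (hU u).1 hu
        have h6 := (hB _).1 ((hN _).1 (hKN hk))
        have h7 : (k : X × Subgroup.zpowers g₀) = (u, 1) := e
        rw [h7] at h6
        exact h6.1
      have hUb : U ≠ ⊥ := by
        intro hbot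
        apply hKb
        rw [Subgroup.eq_bot_iff_forall]
        intro k hk
        obtain ⟨a, rfl⟩ := hNι k (hKN hk)
        have h6 : (a : X) ∈ U := (hU _).2 ⟨ι a, hk, rfl⟩
        rw [hbot, Subgroup.mem_bot] at h6
        apply Subtype.ext
        show ((a : X), (1 : Subgroup.zpowers g₀)) = 1
        rw [h6]
        rfl
      have hNZU : ∀ g : X, ∀ s : Subgroup.zpowers g₀, (g, s) ∈ Y → g ∈ NZ U := by
        intro g s hgs
        have h6 := hKconj K hK hgs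
        refine mem_NZ_of ?_ ?_
        · intro r hr
          rw [hU] at hr ⊢
          have h7 := NZ_conj h6 hr
          have e : ((g, s) : X × Subgroup.zpowers g₀) * (r, 1) * (g, s)⁻¹ = (g * r * g⁻¹, 1) := by
            apply Prod.ext
            · rfl
            · show s * 1 * s⁻¹ = 1
              rw [mul_one, mul_inv_cancel]
          rwa [e] at h7
        · intro r hr
          rw [hU] at hr ⊢
          have h7 := NZ_conj' h6 hr
          have e : ((g, s) : X × Subgroup.zpowers g₀)⁻¹ * (r, 1) * (g, s) = (g⁻¹ * r * g, 1) := by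
            apply Prod.ext
            · rfl
            · show s⁻¹ * 1 * s = 1
              rw [mul_one, inv_mul_cancel]
          rwa [e] at h7
      have hxU : x ∈ NZ U := hNZU x c hxcY
      have hPU : P ≤ NZ U := by
        rw [← hS2]
        refine sup_le (fun a ha => hNZU a 1 (hBY ((hB _).2 ⟨ha, rfl⟩))) ?_
        intro g hg
        have hg2 : g ∈ CZ U := CZ_anti hUP hg.2
        refine mem_NZ_of (fun r hr => ?_) (fun r hr => ?_)
        · have e := mem_CZ.1 hg2 r hr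
          rw [← e, mul_inv_cancel_right]
          exact hr
        · have e := mem_CZ.1 hg2 r hr
          rw [mul_assoc, e, inv_mul_cancel_left]
          exact hr
      have hUeq := h5 U hUP hUb hPU hxU
      refine le_antisymm hKN ?_
      intro n hn
      obtain ⟨a, rfl⟩ := hNι n hn
      have h6 : (a : X) ∈ U := by
        rw [hUeq]
        exact a.2
      obtain ⟨k, hk, e⟩ := (hU _).1 h6
      have h7 : k = ι a := Subtype.ext e
      rw [← h7]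
      exact hk
  have hNc : ¬ Comm N := by
    intro hcomm
    apply h4
    rw [Subgroup.eq_bot_iff_forall]
    intro a ha
    have h6 : a ∈ P₁ ⊓ Subgroup.centralizer (P₁ : Set X) := by
      refine ⟨ha, Subgroup.mem_centralizer_iff.2 fun b hb => ?_⟩
      have h7 := hcomm (ι ⟨b, hb⟩) (hι _) (ι ⟨a, ha⟩) (hι _)
      exact congrArg (fun y : Y => (y : X × Subgroup.zpowers g₀).1) h7
    rw [hS1] at h6
    exact h6
  let xt : Y := ⟨xc, hxcY⟩
  have hpow : xt ^ q ^ (k + 2) ∈ N := by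
    rw [hN]
    have e : ((xt ^ q ^ (k + 2) : Y) : X × Subgroup.zpowers g₀) = (1, 1) := by
      apply Prod.ext
      · show x ^ q ^ (k + 2) = 1
        rw [pow_add, pow_mul, hxk, one_pow]
      · show c ^ q ^ (k + 2) = 1
        rw [pow_add, mul_comm, pow_mul, ← hc, pow_orderOf_eq_one, one_pow]
    rw [e]
    exact B.one_mem
  have hsup : N ⊔ Subgroup.zpowers xt = ⊤ := by
    apply Subgroup.map_injective (Subgroup.subtype_injective Y)
    rw [Subgroup.map_sup, Subgroup.subgroupOf_map_subtype, MonoidHom.map_zpowers, inf_eq_left.2 hBY]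
    rw [← MonoidHom.range_eq_map, Subgroup.range_subtype]
    rfl
  rcases hD Y (laws_of_inj Y.subtype (Subgroup.subtype_injective Y) hL) N hNmin hNc xt q (k + 2) hq
    hpow hsup with hcase | hcase
  · exfalso
    have hxq2 : x ^ q ∈ AC P₁ := by
      have h6 : P ⊔ CZ P ≤ AC P₁ := sup_le hS2' ((CZ_anti h1).trans (CZ_le_AC P₁))
      exact h6 hxq
    obtain ⟨b, hb, hbx⟩ := mem_AC.1 hxq2
    have hy0 : (ι ⟨b, hb⟩)⁻¹ * xt ^ q ∈ Subgroup.centralizer (N : Set Y) := by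
      rw [Subgroup.mem_centralizer_iff]
      intro n hn
      obtain ⟨a, rfl⟩ := hNι n hn
      apply Subtype.ext
      apply Prod.ext
      · exact mem_CZ.1 hbx a a.2
      · show 1 * (1⁻¹ * c ^ q) = (1⁻¹ * c ^ q) * 1
        rw [one_mul, mul_one]
    rw [hcase, Subgroup.mem_bot] at hy0
    have h6 : (1 : Subgroup.zpowers g₀)⁻¹ * c ^ q = 1 :=
      congrArg (fun y : Y => (y : X × Subgroup.zpowers g₀).2) hy0
    rw [inv_one, one_mul] at h6
    have h7 := orderOf_dvd_of_pow_eq_one h6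
    rw [hc] at h7
    have h8 := Nat.le_of_dvd hqpos h7
    have h9 := hq.two_le
    nlinarith
  · have h6 : N ⊔ Subgroup.centralizer (N : Set Y) ≤ AC N := sup_le (le_AC N) (CZ_le_AC N)
    rw [hcase] at h6
    obtain ⟨n, hn, hnx⟩ := mem_AC.1 (h6 (Subgroup.mem_top xt))
    obtain ⟨a, rfl⟩ := hNι n hn
    refine ⟨a, a.2, fun r hr => ?_⟩
    have h7 := mem_CZ.1 hnx (ι ⟨r, hr⟩) (hι _)
    have h8 : r * ((a : X)⁻¹ * x) = ((a : X)⁻¹ * x) * r :=
      congrArg (fun y : Y => (y : X × Subgroup.zpowers g₀).1) h7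
    calc x * r * x⁻¹ = a * (((a : X)⁻¹ * x) * r) * x⁻¹ := by group
      _ = a * (r * ((a : X)⁻¹ * x)) * x⁻¹ := by rw [h8]
      _ = a * r * (a : X)⁻¹ := by group

theorem main (hS : TaskS) {W : Set (FreeGroup ℕ)} (hD : CondD W) {q : ℕ} (hq : q.Prime)
    (ho : HasOrd W q) {X : Type} [Group X] [Finite X] (hX : Laws W X) {P : Subgroup X}
    (hP : MinNormal P) (hPn : ¬ Comm P) {x : X} (hxq : x ^ q ∈ P ⊔ CZ P) {k : ℕ}
    (hxk : x ^ q ^ k = 1) : x ∈ P ⊔ CZ P := by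
  by_contra hx
  let S : Set (Subgroup X) := {R | R ≤ P ∧ P ≤ NZ R ∧ x ∈ NZ R ∧
    ∃ b ∈ R, ∀ r ∈ R, x * r * x⁻¹ = b * r * b⁻¹}
  have hS0 : (⊥ : Subgroup X) ∈ S := by
    refine ⟨bot_le, fun p _ => NZ_normal inferInstance p, NZ_normal inferInstance x, 1,
      Subgroup.one_mem _, ?_⟩
    intro r hr
    rw [Subgroup.mem_bot] at hr
    rw [hr]
    group
  obtain ⟨R, hRm⟩ := (Set.toFinite S).exists_maximal ⟨_, hS0⟩
  obtain ⟨hRP, hPR, hxR, b, hb, hbR⟩ := hRm.prop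
  obtain ⟨hS1, hS2⟩ := hS X P hP hPn R hRP (fun p hp r hr => NZ_conj (hPR hp) hr)
  have hRne : R ≠ P := by
    rintro rfl
    apply hx
    have h1 : b⁻¹ * x ∈ CZ R := by
      rw [mem_CZ]
      intro r hr
      have h2 := hbR r hr
      calc r * (b⁻¹ * x) = b⁻¹ * (b * r * b⁻¹) * x := by group
        _ = b⁻¹ * (x * r * x⁻¹) * x := by rw [h2]
        _ = b⁻¹ * x * r := by group
    have h2 : b * (b⁻¹ * x) ∈ R ⊔ CZ R :=
      Subgroup.mul_mem _ ((le_sup_left : R ≤ _) hb) ((le_sup_right : CZ R ≤ _) h1)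
    rwa [mul_inv_cancel_left] at h2
  have hS0ne : P ⊓ CZ R ≠ ⊥ := by
    intro h
    apply hRne
    have h1 : R ⊔ (P ⊓ CZ R) = P := hS2
    rwa [h, sup_bot_eq] at h1
  have hPn' : ∀ g : X, g ∈ NZ P := NZ_normal hP.1
  let T : Set (Subgroup X) := {U | U ≤ P ⊓ CZ R ∧ U ≠ ⊥ ∧ P ≤ NZ U ∧ x ∈ NZ U}
  have hT0 : P ⊓ CZ R ∈ T :=
    ⟨le_rfl, hS0ne, fun p hp => NZ_inf (hPn' p) (NZ_cent (hPR hp)), NZ_inf (hPn' x) (NZ_cent hxR)⟩
  obtain ⟨P₁, hP₁m⟩ := (Set.toFinite T).exists_minimal ⟨_, hT0⟩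
  obtain ⟨hP₁S, hP₁b, hPP₁, hxP₁⟩ := hP₁m.prop
  have h5 : ∀ U ≤ P₁, U ≠ ⊥ → P ≤ NZ U → x ∈ NZ U → U = P₁ := by
    intro U hU hUb hPU hxU
    exact le_antisymm hU (hP₁m.le_of_le ⟨hU.trans hP₁S, hUb, hPU, hxU⟩ hU)
  obtain ⟨p₁, hp₁, hin⟩ := inner_of_min hS hD hq ho hX hP hPn hxq hxk (hP₁S.trans inf_le_left)
    hPP₁ hxP₁ hP₁b h5
  have hcomm : ∀ r ∈ R, ∀ s ∈ P₁, r * s = s * r := fun r hr s hs =>
    mem_CZ.1 ((hP₁S.trans inf_le_right) hs) r hr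
  have hR' : R ⊔ P₁ ∈ S := by
    refine ⟨sup_le hRP (hP₁S.trans inf_le_left), fun p hp => NZ_sup (hPR hp) (hPP₁ hp),
      NZ_sup hxR hxP₁, b * p₁, Subgroup.mul_mem _ ((le_sup_left : R ≤ _) hb)
      ((le_sup_right : P₁ ≤ _) hp₁), ?_⟩
    have h1 : R ⊔ P₁ ≤ MonoidHom.eqLocus (MulAut.conj x).toMonoidHom
        (MulAut.conj (b * p₁)).toMonoidHom := by
      refine sup_le (fun r hr => ?_) (fun r hr => ?_)
      · show x * r * x⁻¹ = (b * p₁) * r * (b * p₁)⁻¹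
        have h2 := hcomm r hr p₁ hp₁
        calc x * r * x⁻¹ = b * r * b⁻¹ := hbR r hr
          _ = b * (r * p₁) * p₁⁻¹ * b⁻¹ := by group
          _ = b * (p₁ * r) * p₁⁻¹ * b⁻¹ := by rw [h2]
          _ = (b * p₁) * r * (b * p₁)⁻¹ := by group
      · show x * r * x⁻¹ = (b * p₁) * r * (b * p₁)⁻¹
        have h2 := hcomm b hb (p₁ * r * p₁⁻¹) (P₁.mul_mem (P₁.mul_mem hp₁ hr) (P₁.inv_mem hp₁))
        calc x * r * x⁻¹ = p₁ * r * p₁⁻¹ := hin r hr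
          _ = ((p₁ * r * p₁⁻¹) * b) * b⁻¹ := by group
          _ = (b * (p₁ * r * p₁⁻¹)) * b⁻¹ := by rw [h2]
          _ = (b * p₁) * r * (b * p₁)⁻¹ := by group
    exact fun r hr => h1 hr
  have hle := hRm.le_of_ge hR' le_sup_left
  apply hP₁b
  rw [Subgroup.eq_bot_iff_forall]
  intro a ha
  have h6 : a ∈ R ⊓ Subgroup.centralizer (R : Set X) :=
    ⟨hle ((le_sup_right : P₁ ≤ _) ha), (hP₁S.trans inf_le_right) ha⟩
  rw [hS1] at h6
  exact h6

theorem taskD2 : TaskD2 := by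
  intro hS W hD q hq ho X _ _ hX P hP hPn x hx
  classical
  obtain ⟨k, hk⟩ := hx
  by_contra hcon
  have hex : ∃ j : ℕ, x ^ q ^ j ∈ P ⊔ CZ P := ⟨k, by
    rw [hk]
    exact Subgroup.one_mem _⟩
  have hj := Nat.find_spec hex
  have hj0 : Nat.find hex ≠ 0 := by
    intro h
    rw [h, pow_zero, pow_one] at hj
    exact hcon hj
  obtain ⟨i, hi⟩ := Nat.exists_eq_succ_of_ne_zero hj0
  rw [hi] at hj
  have hlt : i < Nat.find hex := by omega
  refine Nat.find_min hex hlt (main hS hD hq ho hX hP hPn (k := k) ?_ ?_)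
  · rw [← pow_mul, ← pow_succ]
    exact hj
  · rw [← pow_mul, mul_comm, pow_mul, hk, one_pow]

end Pool.Agent.H116R3.PVD2
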