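import Mathlib
import Pool.Agent.H508R3.SC

set_option autoImplicit false

/-! 508-SC6: growth (helper116). -/

namespace Pool.Agent.H116R3.SC6

open MeasureTheory Filter Set Topology
open Pool.Agent.H508R3.SC

/-- the contracting eigenvalue of `Am x`, `x < -2` -/
noncomputable def mu (x : ℝ) : ℝ := (x + Real.sqrt (x ^ 2 - 4)) / 2

/-- the expanding eigenvalue of `Am x`, `x < -2` -/
noncomputable def la (x : ℝ) : ℝ := (x - Real.sqrt (x ^ 2 - 4)) / 2

theorem mu_add_la (x : ℝ) : mu x + la x = x := by unfold mu la; ring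

theorem mu_mul_la {x : ℝ} (hx : x ≤ -8) : mu x * la x = 1 := by
  have h : Real.sqrt (x ^ 2 - 4) ^ 2 = x ^ 2 - 4 := Real.sq_sqrt (by nlinarith)
  unfold mu la
  nlinarith

theorem la_le {x : ℝ} (hx : x ≤ -8) : la x ≤ -4 := by
  have h := Real.sqrt_nonneg (x ^ 2 - 4)
  unfold la
  linarith

theorem mu_cont : Continuous mu := by
  unfold mu
  fun_prop

theorem mu_inj {x y : ℝ} (hx : x ≤ -8) (hy : y ≤ -8) (h : mu x = mu y) : x = y := by
  have h1 := mu_mul_la hx
  have h2 := mu_mul_la hy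
  have hne : mu x ≠ 0 := by
    intro h0
    rw [h0, zero_mul] at h1
    exact zero_ne_one h1
  have h3 : la x = la y := by
    rw [← h, ← h1] at h2
    exact (mul_left_cancel₀ hne h2).symm
  rw [← mu_add_la x, ← mu_add_la y, h, h3]

theorem fun_step {x : ℝ} (hx : x ≤ -8) (l : ℕ) (p q : ℝ) :
    (((Am x) ^ l) 0 0 * p + ((Am x) ^ l) 0 1 * q) -
      mu x * (((Am x) ^ l) 1 0 * p + ((Am x) ^ l) 1 1 * q) = (la x) ^ l * (p - mu x * q) := by
  induction l with
  | zero => simp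
  | succ l ih =>
    rw [pow_succ', pow_succ', mul_assoc, ← ih]
    simp only [Matrix.mul_apply, Fin.sum_univ_two]
    have h00 : Am x 0 0 = x := by simp [Am]
    have h01 : Am x 0 1 = -1 := by simp [Am]
    have h10 : Am x 1 0 = 1 := by simp [Am]
    have h11 : Am x 1 1 = 0 := by simp [Am]
    rw [h00, h01, h10, h11]
    have h1 := mu_mul_la hx
    have h2 := mu_add_la x
    generalize (Am x ^ l) 0 0 = a
    generalize (Am x ^ l) 0 1 = b
    generalize (Am x ^ l) 1 0 = c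
    generalize (Am x ^ l) 1 1 = d
    have h3 : la x * mu x = 1 := by rw [mul_comm]; exact h1
    have h4 : x - mu x = la x := by linarith
    calc _ = (x - mu x) * (a * p + b * q) - (c * p + d * q) := by ring
      _ = la x * (a * p + b * q) - (la x * mu x) * (c * p + d * q) := by rw [h4, h3, one_mul]
      _ = _ := by ring

theorem mu_sq_le {x : ℝ} (hx : x ≤ -8) : mu x ^ 2 ≤ 1 := by
  have h1 := mu_mul_la hx
  have h2 := la_le hx
  have h3 : 16 ≤ la x ^ 2 := by nlinarith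
  have h4 : mu x ^ 2 * la x ^ 2 = 1 := by rw [← mul_pow, h1, one_pow]
  nlinarith [sq_nonneg (mu x)]

theorem lower {x : ℝ} (hx : x ≤ -8) (l : ℕ) (p q : ℝ) :
    4 ^ l * (p - mu x * q) ^ 2 ≤
      2 * ((((Am x) ^ l) 0 0 * p + ((Am x) ^ l) 0 1 * q) ^ 2 +
        (((Am x) ^ l) 1 0 * p + ((Am x) ^ l) 1 1 * q) ^ 2) := by
  have h := fun_step hx l p q
  set u := ((Am x) ^ l) 0 0 * p + ((Am x) ^ l) 0 1 * q
  set w := ((Am x) ^ l) 1 0 * p + ((Am x) ^ l) 1 1 * q
  have h1 : (u - mu x * w) ^ 2 ≤ 2 * (u ^ 2 + w ^ 2) := by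
    have hm := mu_sq_le hx
    nlinarith [sq_nonneg (u + mu x * w), mul_nonneg (sub_nonneg.2 hm) (sq_nonneg w), sq_nonneg w]
  refine le_trans ?_ h1
  rw [h, mul_pow, ← pow_mul, mul_comm l 2, pow_mul]
  have h2 := la_le hx
  have h3 : (4 : ℝ) ≤ la x ^ 2 := by nlinarith
  exact mul_le_mul_of_nonneg_right (pow_le_pow_left₀ (by norm_num) h3 l) (sq_nonneg _)

theorem x_le {θ c : ℝ} (hc : 10 ≤ c) : 2 * Real.cos θ - c ≤ -8 := by
  have := Real.cos_le_one θ
  linarith

theorem growth (v : ℝ → ℝ × ℝ) (hv : Measurable v) (hne : ∀ θ, v θ ≠ 0) (Λ ε : ℝ) (hε : 0 < ε) :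
    ∃ c : ℝ, 10 ≤ c ∧ c ≤ 11 ∧ ∃ l : ℕ,
      volume {θ ∈ Set.Icc (Real.pi / 8) (3 * Real.pi / 8) |
        let M := (Am (2 * Real.cos θ - c)) ^ l
        (M 0 0 * (v θ).1 + M 0 1 * (v θ).2) ^ 2 + (M 1 0 * (v θ).1 + M 1 1 * (v θ).2) ^ 2 < Λ} ≤
        ENNReal.ofReal ε := by
  set TH : Set ℝ := Set.Icc (Real.pi / 8) (3 * Real.pi / 8) with hTH
  let f : ℝ → ℝ → ℝ := fun c θ => (v θ).1 - mu (2 * Real.cos θ - c) * (v θ).2
  have hf : ∀ c, Measurable (f c) := by
    intro c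
    have h1 : Measurable (fun θ : ℝ => mu (2 * Real.cos θ - c)) :=
      (mu_cont.comp ((continuous_const.mul Real.continuous_cos).sub continuous_const)).measurable
    exact (measurable_fst.comp hv).sub (h1.mul (measurable_snd.comp hv))
  let cc : ℕ → ℝ := fun i => 10 + 1 / ((i : ℝ) + 1)
  have hcc1 : ∀ i, 10 ≤ cc i := fun i => by
    have : (0 : ℝ) ≤ 1 / ((i : ℝ) + 1) := by positivity
    simp only [cc]; linarith
  have hcc2 : ∀ i, cc i ≤ 11 := fun i => by
    have : 1 / ((i : ℝ) + 1) ≤ 1 := by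
      rw [div_le_one (by positivity)]
      have : (0 : ℝ) ≤ (i : ℝ) := Nat.cast_nonneg i
      linarith
    simp only [cc]; linarith
  have hinj : Function.Injective cc := by
    intro i j hij
    simp only [cc, add_right_inj, one_div, inv_inj, add_left_inj, Nat.cast_inj] at hij
    exact hij
  let B : ℕ → Set ℝ := fun i => TH ∩ {θ | f (cc i) θ = 0}
  have hBm : ∀ i, MeasurableSet (B i) := fun i =>
    measurableSet_Icc.inter (hf (cc i) (measurableSet_singleton 0))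
  have hdisj : Pairwise (Function.onFun Disjoint B) := by
    intro i j hij
    rw [Function.onFun, Set.disjoint_left]
    rintro θ ⟨_, h1⟩ ⟨_, h2⟩
    simp only [Set.mem_setOf_eq, f] at h1 h2
    apply hij
    apply hinj
    have hv2 : (v θ).2 ≠ 0 := by
      intro h0
      rw [h0, mul_zero, sub_zero] at h1
      exact hne θ (Prod.ext h1 h0)
    have h3 : mu (2 * Real.cos θ - cc i) = mu (2 * Real.cos θ - cc j) := by
      have : (mu (2 * Real.cos θ - cc i) - mu (2 * Real.cos θ - cc j)) * (v θ).2 = 0 := by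
        linarith
      rcases mul_eq_zero.1 this with h | h
      · linarith
      · exact absurd h hv2
    have h4 := mu_inj (x_le (hcc1 i)) (x_le (hcc1 j)) h3
    linarith
  have hfin : volume TH ≠ ⊤ := by
    rw [hTH, Real.volume_Icc]
    exact ENNReal.ofReal_ne_top
  have hsum : ∑' i, volume (B i) ≠ ⊤ := by
    rw [← measure_iUnion hdisj hBm]
    exact ne_top_of_le_ne_top hfin (measure_mono (Set.iUnion_subset fun i => Set.inter_subset_left))
  have htend := ENNReal.tendsto_atTop_zero_of_tsum_ne_top hsum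
  have hpos : (0 : ENNReal) < ENNReal.ofReal ε := ENNReal.ofReal_pos.2 hε
  obtain ⟨i, hi⟩ := (htend.eventually (gt_mem_nhds hpos)).exists
  refine ⟨cc i, hcc1 i, hcc2 i, ?_⟩
  let D : ℕ → Set ℝ := fun l => TH ∩ {θ | (4 : ℝ) ^ l * (f (cc i) θ) ^ 2 < 2 * Λ}
  have hDm : ∀ l, MeasurableSet (D l) := fun l =>
    measurableSet_Icc.inter (measurableSet_lt (((hf (cc i)).pow_const 2).const_mul _)
      measurable_const)
  have hDanti : Antitone D := by
    intro l m hlm θ hθ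
    have h5 : (4 : ℝ) ^ m * (f (cc i) θ) ^ 2 < 2 * Λ := hθ.2
    have h6 : (4 : ℝ) ^ l * (f (cc i) θ) ^ 2 ≤ (4 : ℝ) ^ m * (f (cc i) θ) ^ 2 :=
      mul_le_mul_of_nonneg_right (pow_le_pow_right₀ (by norm_num) hlm) (sq_nonneg _)
    have h7 : (4 : ℝ) ^ l * (f (cc i) θ) ^ 2 < 2 * Λ := lt_of_le_of_lt h6 h5
    exact ⟨hθ.1, h7⟩
  have hDfin : ∃ l, volume (D l) ≠ ⊤ :=
    ⟨0, ne_top_of_le_ne_top hfin (measure_mono Set.inter_subset_left)⟩
  have hlim := tendsto_measure_iInter_atTop (μ := (volume : Measure ℝ))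
    (fun l => (hDm l).nullMeasurableSet) hDanti hDfin
  have hsub : (⋂ l, D l) ⊆ B i := by
    intro θ hθ
    rw [Set.mem_iInter] at hθ
    refine ⟨(hθ 0).1, ?_⟩
    by_contra h0
    have hsq : 0 < (f (cc i) θ) ^ 2 := by
      have : f (cc i) θ ≠ 0 := h0
      positivity
    obtain ⟨l, hl⟩ := pow_unbounded_of_one_lt (2 * Λ / (f (cc i) θ) ^ 2)
      (by norm_num : (1 : ℝ) < 4)
    rw [div_lt_iff₀ hsq] at hl
    exact absurd (hθ l).2 (not_lt.2 hl.le)
  have hlt : volume (⋂ l, D l) < ENNReal.ofReal ε := lt_of_le_of_lt (measure_mono hsub) hi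
  obtain ⟨l, hl⟩ := (hlim.eventually (gt_mem_nhds hlt)).exists
  refine ⟨l, le_trans (measure_mono ?_) hl.le⟩
  rintro θ ⟨hθ, h⟩
  refine ⟨hθ, ?_⟩
  have h1 := lower (x_le (θ := θ) (hcc1 i)) l (v θ).1 (v θ).2
  simp only at h
  show (4 : ℝ) ^ l * ((v θ).1 - mu (2 * Real.cos θ - cc i) * (v θ).2) ^ 2 < 2 * Λ
  linarith

end Pool.Agent.H116R3.SC6
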