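import Mathlib
import Pool.Agent.H508R3.SC

set_option autoImplicit false

/-! 508-SC8: the infinite assembly (helper116). -/

namespace Pool.Agent.H116R3.SC8

open MeasureTheory Filter Set Topology
open Pool.Agent.H508R3.SC

/-- the set of angles -/
abbrev TH : Set ℝ := Set.Icc (Real.pi / 8) (3 * Real.pi / 8)

/-- transfer matrices -/
noncomputable def pT (b : ℕ → ℝ) (E : ℝ) (n : ℕ) : Matrix (Fin 2) (Fin 2) ℝ :=
  ((List.range n).reverse.map (fun m => ((1 : ℝ))⁻¹ • !![E - b m, -1; (1 : ℝ) ^ 2, 0])).prod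

theorem pT_eq (b : ℕ → ℝ) (E : ℝ) (n : ℕ) : pT b E n = Tw E ((List.range n).map b) := by
  induction n with
  | zero => simp [pT, Tw]
  | succ n ih =>
    rw [List.range_succ, List.map_append, List.map_singleton, Tw_append, ← ih]
    unfold pT
    rw [List.range_succ, List.reverse_append, List.reverse_singleton, List.singleton_append,
      List.map_cons, List.prod_cons]
    congr 1
    simp [Tw, Am]

theorem ns_mul (A B : M2) : ns (A * B) ≤ ns A * ns B := by
  have cs : ∀ a b c d : ℝ, (a * c + b * d) ^ 2 ≤ (a ^ 2 + b ^ 2) * (c ^ 2 + d ^ 2) := by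
    intro a b c d
    nlinarith [sq_nonneg (a * d - b * c)]
  unfold ns
  simp only [Matrix.mul_apply, Fin.sum_univ_two]
  have h1 := cs (A 0 0) (A 0 1) (B 0 0) (B 1 0)
  have h2 := cs (A 0 0) (A 0 1) (B 0 1) (B 1 1)
  have h3 := cs (A 1 0) (A 1 1) (B 0 0) (B 1 0)
  have h4 := cs (A 1 0) (A 1 1) (B 0 1) (B 1 1)
  nlinarith

theorem ns_nonneg (A : M2) : 0 ≤ ns A := by unfold ns; positivity

theorem ns_one : ns (1 : M2) = 2 := by
  unfold ns; simp; norm_num

theorem sin_lower {θ : ℝ} (hθ : θ ∈ TH) : Real.sin (Real.pi / 8) ≤ Real.sin θ := by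
  have hpi := Real.pi_pos
  apply Real.sin_le_sin_of_le_of_le_pi_div_two
  · linarith
  · linarith [hθ.2]
  · exact hθ.1

theorem s0_pos : 0 < Real.sin (Real.pi / 8) := by
  have hpi := Real.pi_pos
  exact Real.sin_pos_of_pos_of_lt_pi (by linarith) (by linarith)

/-- bound of one step -/
noncomputable def KK : ℝ := 12 ^ 2 + (1 + 11 / Real.sin (Real.pi / 8)) ^ 2 + 1 + 1

theorem ns_st {θ b : ℝ} (hθ : θ ∈ TH) (hb : |b| ≤ 11) : ns (st θ b) ≤ KK := by
  have hs := sin_lower hθ
  have hs0 := s0_pos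
  have hsp : 0 < Real.sin θ := lt_of_lt_of_le hs0 hs
  have e00 : (st θ b) 0 0 = Real.cos θ - b := by
    simp [st, rot, Matrix.mul_apply, Fin.sum_univ_two]
    field_simp
    ring
  have e01 : (st θ b) 0 1 = -Real.sin θ - b / Real.sin θ * Real.cos θ := by
    simp [st, rot, Matrix.mul_apply, Fin.sum_univ_two]
    ring
  have e10 : (st θ b) 1 0 = Real.sin θ := by
    simp [st, rot, Matrix.mul_apply, Fin.sum_univ_two]
  have e11 : (st θ b) 1 1 = Real.cos θ := by
    simp [st, rot, Matrix.mul_apply, Fin.sum_univ_two]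
  unfold ns KK
  rw [e00, e01, e10, e11]
  have hc : |Real.cos θ| ≤ 1 := Real.abs_cos_le_one θ
  have hsn : |Real.sin θ| ≤ 1 := Real.abs_sin_le_one θ
  have h1 : (Real.cos θ - b) ^ 2 ≤ 12 ^ 2 := by
    rw [← sq_abs]
    have : |Real.cos θ - b| ≤ 12 := (abs_sub _ _).trans (by linarith)
    exact pow_le_pow_left₀ (abs_nonneg _) this 2
  have h2 : (-Real.sin θ - b / Real.sin θ * Real.cos θ) ^ 2 ≤
      (1 + 11 / Real.sin (Real.pi / 8)) ^ 2 := by
    rw [← sq_abs]
    refine pow_le_pow_left₀ (abs_nonneg _) ?_ 2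
    refine (abs_sub _ _).trans ?_
    rw [abs_neg, abs_mul, abs_div, abs_of_pos hsp]
    have h3 : |b| / Real.sin θ ≤ 11 / Real.sin (Real.pi / 8) :=
      div_le_div₀ (by norm_num) hb hs0 hs
    have h4 : |b| / Real.sin θ * |Real.cos θ| ≤ 11 / Real.sin (Real.pi / 8) * 1 :=
      mul_le_mul h3 hc (abs_nonneg _) (by positivity)
    rw [abs_of_pos hsp] at hsn
    linarith
  have h3 : Real.sin θ ^ 2 ≤ 1 := Real.sin_sq_le_one θ
  have h4 : Real.cos θ ^ 2 ≤ 1 := Real.cos_sq_le_one θ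
  linarith

theorem ns_Th {θ : ℝ} (hθ : θ ∈ TH) (w : List ℝ) (hw : ∀ b ∈ w, |b| ≤ 11) :
    ns (Th θ w) ≤ 2 * KK ^ w.length := by
  have hK : 0 ≤ KK := by unfold KK; positivity
  induction w with
  | nil => simp [Th, ns_one]
  | cons b w ih =>
    rw [Th, List.length_cons, pow_succ]
    have h1 := ns_mul (Th θ w) (st θ b)
    have h2 := ih (fun b hb => hw b (List.mem_cons_of_mem _ hb))
    have h3 := ns_st hθ (hw b List.mem_cons_self)
    calc ns (Th θ w * st θ b) ≤ ns (Th θ w) * ns (st θ b) := h1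
      _ ≤ (2 * KK ^ w.length) * KK := mul_le_mul h2 h3 (ns_nonneg _) (by positivity)
      _ = _ := by ring

theorem Tw_replicate (E c : ℝ) (l : ℕ) : Tw E (List.replicate l c) = (Am (E - c)) ^ l := by
  induction l with
  | zero => simp [Tw]
  | succ l ih => rw [List.replicate_succ, Tw, ih, pow_succ]

theorem Tw_cont (w : List ℝ) : Continuous (fun E => Tw E w) := by
  induction w with
  | nil => exact continuous_const
  | cons b w ih =>
    simp only [Tw]
    refine ih.mul ?_
    unfold Am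
    refine continuous_matrix fun i j => ?_
    fin_cases i <;> fin_cases j <;> simp <;> fun_prop

/-- boundedness in the original coordinates -/
theorem Tw_bound {θ : ℝ} (hθ : θ ∈ TH) {w : List ℝ} {C1 : ℝ} (h : ns (Th θ w) ≤ C1) :
    ∀ i j : Fin 2, |(Tw (2 * Real.cos θ) w) i j| ≤
      4 * (1 + 1 / Real.sin (Real.pi / 8)) * (1 + C1) := by
  have hs := sin_lower hθ
  have hs0 := s0_pos
  have hsp : 0 < Real.sin θ := lt_of_lt_of_le hs0 hs
  have hC1 : 0 ≤ C1 := (ns_nonneg _).trans h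
  have hc : |Real.cos θ| ≤ 1 := Real.abs_cos_le_one θ
  have hsn : |Real.sin θ| ≤ 1 := Real.abs_sin_le_one θ
  set B := Th θ w with hB
  have hent : ∀ i j : Fin 2, |B i j| ≤ 1 + C1 := by
    intro i j
    have h1 : (B i j) ^ 2 ≤ C1 := by
      refine le_trans ?_ h
      unfold ns
      fin_cases i <;> fin_cases j <;> simp <;> nlinarith [sq_nonneg (B 0 0), sq_nonneg (B 0 1),
        sq_nonneg (B 1 0), sq_nonneg (B 1 1)]
    have h2 : |B i j| ^ 2 ≤ C1 := by rwa [sq_abs]
    nlinarith [abs_nonneg (B i j), sq_nonneg (|B i j| - 1)]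
  have key := Sm_Tw θ hsp.ne' w
  rw [← hB] at key
  set T := Tw (2 * Real.cos θ) w with hT
  have k00 := congrFun (congrFun key 0) 0
  have k01 := congrFun (congrFun key 0) 1
  have k10 := congrFun (congrFun key 1) 0
  have k11 := congrFun (congrFun key 1) 1
  simp [Sm, Matrix.mul_apply, Fin.sum_univ_two] at k00 k01 k10 k11
  -- second row
  have r10 : T 1 0 = B 1 0 / Real.sin θ := by
    rw [eq_div_iff hsp.ne']; linarith
  have r11 : T 1 1 = (-(B 1 0 * Real.cos θ) + B 1 1 * Real.sin θ) / Real.sin θ := by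
    rw [eq_div_iff hsp.ne']; linarith
  have hinv : 1 / Real.sin θ ≤ 1 / Real.sin (Real.pi / 8) := one_div_le_one_div_of_le hs0 hs
  have hinv0 : 0 < 1 / Real.sin θ := by positivity
  set D := 1 / Real.sin (Real.pi / 8) with hD
  have hD0 : 0 < D := by positivity
  have hA : ∀ x : ℝ, |x| ≤ 2 * (1 + C1) → |x / Real.sin θ| ≤ 2 * (1 + C1) * D := by
    intro x hx
    rw [div_eq_mul_one_div, abs_mul, abs_of_pos hinv0]
    exact mul_le_mul hx hinv hinv0.le (by positivity)
  have a10 : |T 1 0| ≤ 2 * (1 + C1) * D := by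
    rw [r10]
    exact hA _ ((hent 1 0).trans (by linarith))
  have m1 : |B 1 0 * Real.cos θ| ≤ 1 + C1 := by
    rw [abs_mul]
    calc _ ≤ (1 + C1) * 1 := mul_le_mul (hent 1 0) hc (abs_nonneg _) (by positivity)
      _ = _ := mul_one _
  have m2 : |B 1 1 * Real.sin θ| ≤ 1 + C1 := by
    rw [abs_mul]
    calc _ ≤ (1 + C1) * 1 := mul_le_mul (hent 1 1) hsn (abs_nonneg _) (by positivity)
      _ = _ := mul_one _
  have a11 : |T 1 1| ≤ 2 * (1 + C1) * D := by
    rw [r11]
    refine hA _ ?_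
    refine (abs_add_le _ _).trans ?_
    rw [abs_neg]
    linarith
  have m3 : |B 0 0 * Real.cos θ| ≤ 1 + C1 := by
    rw [abs_mul]
    calc _ ≤ (1 + C1) * 1 := mul_le_mul (hent 0 0) hc (abs_nonneg _) (by positivity)
      _ = _ := mul_one _
  have m4 : |B 0 1 * Real.sin θ| ≤ 1 + C1 := by
    rw [abs_mul]
    calc _ ≤ (1 + C1) * 1 := mul_le_mul (hent 0 1) hsn (abs_nonneg _) (by positivity)
      _ = _ := mul_one _
  have c10 : |Real.cos θ * T 1 0| ≤ 2 * (1 + C1) * D := by
    rw [abs_mul]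
    calc _ ≤ 1 * (2 * (1 + C1) * D) := mul_le_mul hc a10 (abs_nonneg _) (by norm_num)
      _ = _ := one_mul _
  have c11 : |Real.cos θ * T 1 1| ≤ 2 * (1 + C1) * D := by
    rw [abs_mul]
    calc _ ≤ 1 * (2 * (1 + C1) * D) := mul_le_mul hc a11 (abs_nonneg _) (by norm_num)
      _ = _ := one_mul _
  have a00 : |T 0 0| ≤ (1 + C1) + 2 * (1 + C1) * D := by
    have : T 0 0 = B 0 0 + Real.cos θ * T 1 0 := by linarith
    rw [this]
    refine (abs_add_le _ _).trans ?_
    have := hent 0 0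
    linarith
  have a01 : |T 0 1| ≤ 2 * (1 + C1) + 2 * (1 + C1) * D := by
    have : T 0 1 = (-(B 0 0 * Real.cos θ) + B 0 1 * Real.sin θ) + Real.cos θ * T 1 1 := by linarith
    rw [this]
    refine (abs_add_le _ _).trans ?_
    have : |-(B 0 0 * Real.cos θ) + B 0 1 * Real.sin θ| ≤ 2 * (1 + C1) := by
      refine (abs_add_le _ _).trans ?_
      rw [abs_neg]
      linarith
    linarith
  have hfin : 2 * (1 + C1) + 2 * (1 + C1) * D ≤ 4 * (1 + D) * (1 + C1) := by nlinarith
  have hp : 0 ≤ (1 + C1) := by linarith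
  have hq : 0 ≤ (1 + C1) * D := by positivity
  intro i j
  fin_cases i <;> fin_cases j
  · exact a00.trans (by nlinarith)
  · exact a01.trans hfin
  · exact a10.trans (by nlinarith)
  · exact a11.trans (by nlinarith)

/-- the statement of 508-SC6 -/
def Growth : Prop :=
  ∀ (v : ℝ → ℝ × ℝ), Measurable v → (∀ θ, v θ ≠ 0) → ∀ (Λ ε : ℝ), 0 < ε →
    ∃ c : ℝ, 10 ≤ c ∧ c ≤ 11 ∧ ∃ l : ℕ,
      volume {θ ∈ Set.Icc (Real.pi / 8) (3 * Real.pi / 8) |
        let M := (Am (2 * Real.cos θ - c)) ^ l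
        (M 0 0 * (v θ).1 + M 0 1 * (v θ).2) ^ 2 + (M 1 0 * (v θ).1 + M 1 1 * (v θ).2) ^ 2 < Λ} ≤
        ENNReal.ofReal ε

/-- the statement about the universal words -/
def Univ (C1 : ℝ) : Prop :=
  ∀ (M ε : ℝ), 0 < ε → ∃ w : List ℝ, (∀ b ∈ w, |b| ≤ 1) ∧
    volume {θ ∈ Set.Icc (Real.pi / 8) (3 * Real.pi / 8) |
      ¬ ∀ g : M2, g.det = 1 → ns g ≤ M → ∃ t ≤ w.length, ns (Th θ (w.take t) * g) ≤ C1} ≤
      ENNReal.ofReal ε

theorem step_ex {C1 : ℝ} (hU : Univ C1) (hG : Growth) (W : List ℝ) (hW : ∀ b ∈ W, |b| ≤ 11)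
    (j : ℕ) : ∃ G U : List ℝ, (∀ b ∈ G, |b| ≤ 11) ∧ (∀ b ∈ U, |b| ≤ 11) ∧
      volume {θ ∈ TH | (Tw (2 * Real.cos θ) (W ++ G)) 0 0 ^ 2 +
        (Tw (2 * Real.cos θ) (W ++ G)) 1 0 ^ 2 < j} ≤ ENNReal.ofReal ((1 / 2) ^ j) ∧
      volume {θ ∈ TH | ¬ ∃ t ≤ U.length, ns (Th θ ((W ++ G) ++ U.take t)) ≤ C1} ≤
        ENNReal.ofReal ((1 / 2) ^ j) := by
  have hcont : Continuous (fun θ : ℝ => Tw (2 * Real.cos θ) W) :=
    (Tw_cont W).comp (continuous_const.mul Real.continuous_cos)
  obtain ⟨c, hc1, hc2, l, hl⟩ := hG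
    (fun θ => ((Tw (2 * Real.cos θ) W) 0 0, (Tw (2 * Real.cos θ) W) 1 0))
    ((hcont.matrix_elem 0 0).prodMk (hcont.matrix_elem 1 0)).measurable
    (by
      intro θ h
      have h1 := Tw_det (2 * Real.cos θ) W
      rw [Matrix.det_fin_two] at h1
      have h2 : (Tw (2 * Real.cos θ) W) 0 0 = 0 := congrArg Prod.fst h
      have h3 : (Tw (2 * Real.cos θ) W) 1 0 = 0 := congrArg Prod.snd h
      rw [h2, h3] at h1
      norm_num at h1)
    j ((1 / 2) ^ j) (by positivity)
  set G : List ℝ := List.replicate l c with hGdef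
  have hG11 : ∀ b ∈ G, |b| ≤ 11 := by
    intro b hb
    rw [List.eq_of_mem_replicate hb, abs_of_nonneg (by linarith)]
    exact hc2
  have hWG : ∀ b ∈ W ++ G, |b| ≤ 11 := by
    intro b hb
    rcases List.mem_append.1 hb with h | h
    · exact hW b h
    · exact hG11 b h
  obtain ⟨U, hU1, hU2⟩ := hU (2 * KK ^ (W ++ G).length) ((1 / 2) ^ j) (by positivity)
  refine ⟨G, U, hG11, fun b hb => (hU1 b hb).trans (by norm_num), ?_, ?_⟩
  · refine (measure_mono ?_).trans hl
    rintro θ ⟨hθ, h⟩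
    refine ⟨hθ, ?_⟩
    rw [Tw_append, hGdef, Tw_replicate] at h
    simp only [Matrix.mul_apply, Fin.sum_univ_two] at h
    exact h
  · refine (measure_mono ?_).trans hU2
    rintro θ ⟨hθ, h⟩
    refine ⟨hθ, fun hcon => h ?_⟩
    obtain ⟨t, ht, h1⟩ := hcon (Th θ (W ++ G)) (Th_det θ _) (ns_Th hθ _ hWG)
    refine ⟨t, ht, ?_⟩
    rw [Th_append θ (W ++ G)]
    exact h1

theorem assembly (C1 : ℝ) (hU : Univ C1) (hG : Growth) :
    ∃ (b : ℕ → ℝ) (nj : ℕ → ℕ), (∀ n, |b n| ≤ 11) ∧
      (∀ᵐ E ∂(volume.restrict (Set.Icc (2 * Real.cos (3 * Real.pi / 8))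
          (2 * Real.cos (Real.pi / 8)))),
        Tendsto (fun j => (pT b E (nj j)) 0 0 ^ 2 + (pT b E (nj j)) 1 0 ^ 2) atTop atTop ∧
        ∃ C : ℝ, ∀ N : ℕ, ∃ n ≥ N, ∀ i j : Fin 2, |(pT b E n) i j| ≤ C) := by
  classical
  let Wd := {W : List ℝ // ∀ b ∈ W, |b| ≤ 11}
  choose G U hG11 hU11 hm1 hm2 using fun (W : Wd) (j : ℕ) => step_ex hU hG W.1 W.2 j
  have hnext : ∀ (W : Wd) (j : ℕ), ∀ b ∈ W.1 ++ (G W j ++ (U W j ++ [0])), |b| ≤ 11 := by
    intro W j b hb
    rcases List.mem_append.1 hb with h | h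
    · exact W.2 b h
    rcases List.mem_append.1 h with h | h
    · exact hG11 W j b h
    rcases List.mem_append.1 h with h | h
    · exact hU11 W j b h
    · rw [List.mem_singleton.1 h, abs_zero]; norm_num
  let S : ℕ → Wd := fun j => Nat.rec (motive := fun _ => Wd) ⟨[], by simp⟩
    (fun j W => ⟨W.1 ++ (G W j ++ (U W j ++ [0])), hnext W j⟩) j
  have hS : ∀ j, (S (j + 1)).1 = (S j).1 ++ (G (S j) j ++ (U (S j) j ++ [0])) := fun j => rfl
  have hpre : ∀ j k, j ≤ k → (S j).1 <+: (S k).1 := by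
    intro j k hjk
    induction k, hjk using Nat.le_induction with
    | base => exact List.prefix_refl _
    | succ k _ ih =>
      rw [hS]
      exact ih.trans (List.prefix_append _ _)
  have hlen : ∀ j, j ≤ (S j).1.length := by
    intro j
    induction j with
    | zero => exact Nat.zero_le _
    | succ j ih =>
      rw [hS]
      simp only [List.length_append, List.length_singleton]
      omega
  let b : ℕ → ℝ := fun n => (S (n + 1)).1.getD n 0
  have hpg : ∀ (l1 l2 : List ℝ) (i : ℕ), l1 <+: l2 → i < l1.length → l2.getD i 0 = l1.getD i 0 := by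
    rintro l1 l2 i ⟨t, rfl⟩ hi
    exact List.getD_append _ _ _ _ hi
  have hb : ∀ j i, i < (S j).1.length → b i = (S j).1.getD i 0 := by
    intro j i hi
    rcases le_total j (i + 1) with h | h
    · exact hpg _ _ i (hpre _ _ h) hi
    · exact (hpg _ _ i (hpre _ _ h) (by have := hlen (i + 1); omega)).symm
  have htake : ∀ j n, n ≤ (S j).1.length → (List.range n).map b = (S j).1.take n := by
    intro j n hn
    apply List.ext_getElem
    · simp only [List.length_map, List.length_range, List.length_take]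
      omega
    · intro i h1 h2
      simp only [List.length_map, List.length_range] at h1
      rw [List.getElem_map, List.getElem_range, List.getElem_take, hb j i (by omega),
        List.getD_eq_getElem _ _ (by omega)]
  have hb11 : ∀ n, |b n| ≤ 11 := by
    intro n
    have h1 : n < (S (n + 1)).1.length := by have := hlen (n + 1); omega
    change |(S (n + 1)).1.getD n 0| ≤ 11
    rw [List.getD_eq_getElem _ _ h1]
    exact (S (n + 1)).2 _ (List.getElem_mem h1)
  let nj : ℕ → ℕ := fun j => ((S j).1 ++ G (S j) j).length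
  have hS' : ∀ j, (S (j + 1)).1 = ((S j).1 ++ G (S j) j) ++ (U (S j) j ++ [0]) := by
    intro j
    rw [hS, List.append_assoc]
  have htk : ∀ j t, t ≤ (U (S j) j).length →
      (List.range (nj j + t)).map b = ((S j).1 ++ G (S j) j) ++ (U (S j) j).take t := by
    intro j t ht
    rw [htake (j + 1) (nj j + t) (by
      rw [hS']
      simp only [List.length_append, List.length_singleton, nj]
      omega), hS', List.take_length_add_append, List.take_append_of_le_length ht]
  have htk0 : ∀ j, (List.range (nj j)).map b = (S j).1 ++ G (S j) j := by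
    intro j
    have := htk j 0 (Nat.zero_le _)
    rwa [add_zero, List.take_zero, List.append_nil] at this
  refine ⟨b, nj, hb11, ?_⟩
  -- Borel-Cantelli
  have hsum : (∑' j : ℕ, ENNReal.ofReal ((1 / 2 : ℝ) ^ j)) ≠ ⊤ := by
    rw [← ENNReal.ofReal_tsum_of_nonneg (fun _ => by positivity) summable_geometric_two]
    exact ENNReal.ofReal_ne_top
  have hbc1 := ae_eventually_notMem (μ := (volume : Measure ℝ))
    (ne_top_of_le_ne_top hsum (ENNReal.tsum_le_tsum fun j => hm1 (S j) j))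
  have hbc2 := ae_eventually_notMem (μ := (volume : Measure ℝ))
    (ne_top_of_le_ne_top hsum (ENNReal.tsum_le_tsum fun j => hm2 (S j) j))
  have hθ : ∀ᵐ θ ∂(volume : Measure ℝ), θ ∈ TH →
      (Tendsto (fun j => (pT b (2 * Real.cos θ) (nj j)) 0 0 ^ 2 +
        (pT b (2 * Real.cos θ) (nj j)) 1 0 ^ 2) atTop atTop ∧
        ∃ C : ℝ, ∀ N : ℕ, ∃ n ≥ N, ∀ i j : Fin 2, |(pT b (2 * Real.cos θ) n) i j| ≤ C) := by
    filter_upwards [hbc1, hbc2] with θ h1 h2 hmem
    constructor
    · refine tendsto_atTop_mono' atTop ?_ (tendsto_natCast_atTop_atTop (R := ℝ))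
      filter_upwards [h1] with j hj
      by_contra hcon
      push Not at hcon
      apply hj
      refine ⟨hmem, ?_⟩
      rw [pT_eq, htk0] at hcon
      exact hcon
    · refine ⟨4 * (1 + 1 / Real.sin (Real.pi / 8)) * (1 + C1), fun N => ?_⟩
      obtain ⟨j0, hj0⟩ := eventually_atTop.1 h2
      have h3 := hj0 (max j0 N) (le_max_left _ _)
      set j := max j0 N with hj
      have h4 : ∃ t ≤ (U (S j) j).length,
          ns (Th θ (((S j).1 ++ G (S j) j) ++ (U (S j) j).take t)) ≤ C1 := by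
        by_contra hcon
        exact h3 ⟨hmem, hcon⟩
      obtain ⟨t, ht, h5⟩ := h4
      refine ⟨nj j + t, ?_, ?_⟩
      · have h6 := hlen j
        have h7 : N ≤ j := le_max_right _ _
        simp only [nj, List.length_append]
        omega
      · rw [pT_eq, htk j t ht]
        exact Tw_bound hmem h5
  -- transfer to the energies
  rw [ae_restrict_iff' measurableSet_Icc, ae_iff]
  rw [ae_iff] at hθ
  have himg := addHaar_image_eq_zero_of_differentiableOn_of_addHaar_eq_zero
    (μ := (volume : Measure ℝ)) (f := fun θ : ℝ => 2 * Real.cos θ)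
    ((Real.differentiable_cos.const_mul 2).differentiableOn) hθ
  refine measure_mono_null ?_ himg
  intro E hE
  simp only [Set.mem_setOf_eq, Classical.not_imp] at hE
  obtain ⟨hE1, hE2⟩ := hE
  have hpi := Real.pi_pos
  have hE3 : E / 2 ≤ Real.cos (Real.pi / 8) := by linarith [hE1.2]
  have hE4 : Real.cos (3 * Real.pi / 8) ≤ E / 2 := by linarith [hE1.1]
  have hcos : Real.cos (Real.arccos (E / 2)) = E / 2 := by
    apply Real.cos_arccos
    · exact (Real.neg_one_le_cos _).trans hE4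
    · exact hE3.trans (Real.cos_le_one _)
  have hmem : Real.arccos (E / 2) ∈ TH := by
    constructor
    · have h1 := Real.arccos_le_arccos hE3
      rwa [Real.arccos_cos (by linarith) (by linarith)] at h1
    · have h1 := Real.arccos_le_arccos hE4
      rwa [Real.arccos_cos (by linarith) (by linarith)] at h1
  have h2E : 2 * Real.cos (Real.arccos (E / 2)) = E := by rw [hcos]; ring
  refine ⟨Real.arccos (E / 2), ?_, h2E⟩
  simp only [Set.mem_setOf_eq, Classical.not_imp]
  refine ⟨hmem, ?_⟩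
  rw [h2E]
  exact hE2

end Pool.Agent.H116R3.SC8
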